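import Mathlib

set_option autoImplicit false
set_option linter.unusedSectionVars false

namespace Pool.Agent.H38.Ram

open Finset

/-- No bipartite hole of size `n`: any two disjoint vertex sets of size at least `n` are joined
by an edge. -/
def Joined {V : Type*} (G : SimpleGraph V) (n : ℕ) : Prop :=
  ∀ A B : Finset V, Disjoint A B → n ≤ A.card → n ≤ B.card → ∃ a ∈ A, ∃ b ∈ B, G.Adj a b

lemma joined_of_not_contained {V : Type*} (G : SimpleGraph V) (n : ℕ)
    (h : ¬ (completeBipartiteGraph (Fin n) (Fin n)).IsContained Gᶜ) : Joined G n := by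
  classical
  intro A B hAB hA hB
  by_contra hcon
  push Not at hcon
  apply h
  obtain ⟨A', hA'sub, hA'⟩ := Finset.exists_subset_card_eq hA
  obtain ⟨B', hB'sub, hB'⟩ := Finset.exists_subset_card_eq hB
  let eA := (A'.equivFinOfCardEq hA').symm
  let eB := (B'.equivFinOfCardEq hB').symm
  have hne : ∀ i j, (eA i : V) ≠ (eB j : V) := by
    intro i j heq
    have h1 : (eA i : V) ∈ A := hA'sub (eA i).2
    have h2 : (eB j : V) ∈ B := hB'sub (eB j).2
    rw [heq] at h1
    exact (Finset.disjoint_left.mp hAB) h1 h2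
  have hnadj : ∀ i j, ¬ G.Adj (eA i : V) (eB j : V) := by
    intro i j
    exact hcon _ (hA'sub (eA i).2) _ (hB'sub (eB j).2)
  refine ⟨⟨⟨Sum.elim (fun i => (eA i : V)) (fun j => (eB j : V)), ?_⟩, ?_⟩⟩
  · intro a b hab
    rcases a with i | i <;> rcases b with j | j
    · simp [completeBipartiteGraph] at hab
    · simp only [Sum.elim_inl, Sum.elim_inr, SimpleGraph.compl_adj]
      exact ⟨hne i j, hnadj i j⟩
    · simp only [Sum.elim_inl, Sum.elim_inr, SimpleGraph.compl_adj]
      exact ⟨fun h => hne j i h.symm, fun h => hnadj j i h.symm⟩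
    · simp [completeBipartiteGraph] at hab
  · intro a b hab
    rcases a with i | i <;> rcases b with j | j
    · simp only [RelHom.coeFn_mk, Sum.elim_inl] at hab
      rw [eA.injective (Subtype.ext hab)]
    · exact absurd hab (hne i j)
    · exact absurd hab.symm (hne j i)
    · simp only [RelHom.coeFn_mk, Sum.elim_inr] at hab
      rw [eB.injective (Subtype.ext hab)]

variable {V : Type*} [DecidableEq V] (G : SimpleGraph V) [DecidableRel G.Adj]

/-- Neighbours of `v` in `W`. -/
def nb (W : Finset V) (v : V) : Finset V := W.filter (G.Adj v)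

lemma mem_nb {W : Finset V} {v u : V} : u ∈ nb G W v ↔ u ∈ W ∧ G.Adj v u := by
  simp [nb]

lemma nb_subset (W : Finset V) (v : V) : nb G W v ⊆ W := Finset.filter_subset _ _

lemma nb_mono {W W' : Finset V} (h : W ⊆ W') (v : V) : nb G W v ⊆ nb G W' v :=
  Finset.filter_subset_filter _ h

/-- Key consequence of `Joined`: fewer than `n` vertices `v` (of an arbitrary set) have all
neighbourhoods inside `W` of size smaller than a fixed bound. -/
lemma few_low {n : ℕ} (hJ : Joined G n) (W L : Finset V) (m : ℕ)
    (hL : ∀ v ∈ L, (nb G W v).card ≤ m) (hW : n * m + 2 * n ≤ W.card) :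
    L.card < n := by
  by_contra hcon
  push Not at hcon
  obtain ⟨A, hAL, hA⟩ := Finset.exists_subset_card_eq hcon
  set U := W \ (A ∪ A.biUnion (fun v => nb G W v)) with hU
  have h1 : (A ∪ A.biUnion (fun v => nb G W v)).card ≤ n + n * m := by
    refine (Finset.card_union_le _ _).trans ?_
    rw [hA]
    have : (A.biUnion (fun v => nb G W v)).card ≤ n * m := by
      refine (Finset.card_biUnion_le_card_mul A _ m (fun v hv => hL v (hAL hv))).trans ?_
      rw [hA]
    omega
  have h2 : n ≤ U.card := by
    have := Finset.le_card_sdiff (A ∪ A.biUnion (fun v => nb G W v)) W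
    rw [hU]
    omega
  have hd : Disjoint A U := by
    rw [Finset.disjoint_left]
    intro a ha haU
    rw [hU, Finset.mem_sdiff] at haU
    exact haU.2 (Finset.mem_union_left _ ha)
  obtain ⟨a, ha, b, hb, hab⟩ := hJ A U hd (by omega) h2
  rw [hU, Finset.mem_sdiff] at hb
  apply hb.2
  apply Finset.mem_union_right
  rw [Finset.mem_biUnion]
  exact ⟨a, ha, (mem_nb G).2 ⟨hb.1, hab⟩⟩

end Pool.Agent.H38.Ram
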