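import Pool.Agent.H38.Ram.Pairs

set_option autoImplicit false
set_option linter.unusedSectionVars false

namespace Pool.Agent.H38.Ram

open Finset

variable {V : Type*} [DecidableEq V] [Fintype V] (G : SimpleGraph V) [DecidableRel G.Adj]

/-- Vertices with few neighbours in `U`. -/
def low (m : ℕ) (U : Finset V) : Finset V := Finset.univ.filter (fun v => (nb G U v).card < m)

/-- Vertices with few common neighbours with `v` in `U`. -/
def poor (τ : ℕ) (U : Finset V) (v : V) : Finset V :=
  Finset.univ.filter (fun u => (cn G U v u).card < τ)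

/-- Vertices with many neighbours in `poor τ U v`. -/
def att (τ θ : ℕ) (U : Finset V) (v : V) : Finset V :=
  Finset.univ.filter (fun a => θ ≤ (nb G (poor G τ U v) a).card)

/-- Vertices lying in too many sets `att`. -/
def heavy (m τ θ M : ℕ) (U : Finset V) : Finset V :=
  Finset.univ.filter (fun a =>
    M < ((Finset.univ \ low G m U).filter (fun v => a ∈ att G τ θ U v)).card)

lemma mem_poor {τ : ℕ} {U : Finset V} {v u : V} : u ∈ poor G τ U v ↔ (cn G U v u).card < τ := by
  simp [poor]

lemma mem_poor_comm {τ : ℕ} {U : Finset V} {v u : V} : u ∈ poor G τ U v ↔ v ∈ poor G τ U u := by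
  rw [mem_poor, mem_poor, cn_comm]

lemma mem_att {τ θ : ℕ} {U : Finset V} {v a : V} :
    a ∈ att G τ θ U v ↔ θ ≤ (nb G (poor G τ U v) a).card := by
  simp [att]

lemma not_mem_low {m : ℕ} {U : Finset V} {v : V} : v ∉ low G m U ↔ m ≤ (nb G U v).card := by
  simp [low]

lemma low_card {n : ℕ} (hJ : Joined G n) (m : ℕ) (U : Finset V)
    (hU : n * m + 2 * n ≤ U.card) : (low G m U).card < n := by
  refine few_low G hJ U _ m ?_ hU
  intro v hv
  rw [low, Finset.mem_filter] at hv
  exact hv.2.le

lemma poor_card {n : ℕ} (hJ : Joined G n) (τ : ℕ) (U : Finset V) (v : V)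
    (hv : v ∉ low G (n * τ + 2 * n) U) : (poor G τ U v).card < n := by
  rw [not_mem_low] at hv
  refine few_low G hJ (nb G U v) _ τ ?_ hv
  intro u hu
  rw [mem_poor] at hu
  exact hu.le

lemma att_card {n σ θ : ℕ} (hJ : Joined G n)
    (hDS : ∀ D : Finset V, D.card ≤ n →
      (Finset.univ.filter (fun a => θ ≤ (nb G D a).card)).card ≤ σ)
    (τ : ℕ) (U : Finset V) (v : V) (hv : v ∉ low G (n * τ + 2 * n) U) :
    (att G τ θ U v).card ≤ σ :=
  hDS _ (poor_card G hJ τ U v hv).le

lemma heavy_card {n σ θ : ℕ} (hJ : Joined G n)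
    (hDS : ∀ D : Finset V, D.card ≤ n →
      (Finset.univ.filter (fun a => θ ≤ (nb G D a).card)).card ≤ σ)
    (τ M : ℕ) (U : Finset V) :
    (heavy G (n * τ + 2 * n) τ θ M U).card * M ≤ (Finset.univ : Finset V).card * σ := by
  set L := low G (n * τ + 2 * n) U with hL
  calc (heavy G (n * τ + 2 * n) τ θ M U).card * M
      = ∑ a ∈ heavy G (n * τ + 2 * n) τ θ M U, M := by rw [Finset.sum_const, smul_eq_mul]
    _ ≤ ∑ a ∈ heavy G (n * τ + 2 * n) τ θ M U,
        ((Finset.univ \ L).filter (fun v => a ∈ att G τ θ U v)).card := by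
        refine Finset.sum_le_sum ?_
        intro a ha
        rw [heavy, Finset.mem_filter] at ha
        exact ha.2.le
    _ ≤ ∑ a ∈ (Finset.univ : Finset V),
        ((Finset.univ \ L).filter (fun v => a ∈ att G τ θ U v)).card :=
        Finset.sum_le_sum_of_subset (Finset.subset_univ _)
    _ = ∑ v ∈ Finset.univ \ L, ((Finset.univ : Finset V).filter
        (fun a => a ∈ att G τ θ U v)).card := by
        have h := Finset.sum_card_bipartiteAbove_eq_sum_card_bipartiteBelow
          (s := (Finset.univ : Finset V)) (t := Finset.univ \ L)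
          (fun (a v : V) => a ∈ att G τ θ U v)
        simpa only [Finset.bipartiteAbove, Finset.bipartiteBelow] using h
    _ ≤ ∑ v ∈ Finset.univ \ L, σ := by
        refine Finset.sum_le_sum ?_
        intro v hv
        rw [Finset.mem_sdiff] at hv
        have h1 : ((Finset.univ : Finset V).filter (fun a => a ∈ att G τ θ U v)) =
          att G τ θ U v := by
          ext a; simp
        rw [h1]
        exact att_card G hJ hDS τ U v hv.2
    _ = (Finset.univ \ L).card * σ := by rw [Finset.sum_const, smul_eq_mul]
    _ ≤ _ := Nat.mul_le_mul_right _ (Finset.card_le_card (Finset.subset_univ _))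

/-- The decreasing chain of vertex sets. -/
def chain (m τ θ M : ℕ) : ℕ → Finset V
  | 0 => Finset.univ
  | j + 1 => chain m τ θ M j \
      (low G m (chain m τ θ M j) ∪ heavy G m τ θ M (chain m τ θ M j))

lemma chain_anti (m τ θ M : ℕ) : Antitone (chain G m τ θ M) :=
  antitone_nat_of_succ_le (fun j => by
    rw [chain]
    exact Finset.sdiff_subset)

lemma chain_not_mem (m τ θ M : ℕ) {i j : ℕ} (hij : i < j) {v : V}
    (hv : v ∈ chain G m τ θ M j) :
    v ∉ low G m (chain G m τ θ M i) ∧ v ∉ heavy G m τ θ M (chain G m τ θ M i) := by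
  have h1 : v ∈ chain G m τ θ M (i + 1) := chain_anti G m τ θ M hij hv
  rw [chain, Finset.mem_sdiff, Finset.mem_union, not_or] at h1
  exact h1.2

lemma chain_card {n σ θ k : ℕ} (hJ : Joined G n)
    (hDS : ∀ D : Finset V, D.card ≤ n →
      (Finset.univ.filter (fun a => θ ≤ (nb G D a).card)).card ≤ σ)
    (τ M : ℕ) (hσ : 1 ≤ σ) (hk : 1 ≤ k) (hM : 8 * k * σ ≤ M)
    (hN1 : 2 * (n * (n * τ + 2 * n) + 2 * n) ≤ (Finset.univ : Finset V).card)
    (hN2 : 8 * k * n ≤ 3 * (Finset.univ : Finset V).card) :
    ∀ j ≤ k, (Finset.univ : Finset V).card ≤ 2 * (chain G (n * τ + 2 * n) τ θ M j).card := by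
  have key : ∀ j ≤ k, 8 * k * (Finset.univ : Finset V).card ≤
      8 * k * (chain G (n * τ + 2 * n) τ θ M j).card +
        j * (8 * k * n + (Finset.univ : Finset V).card) := by
    intro j
    induction j with
    | zero =>
      intro _
      rw [chain]
      simp
    | succ j ih =>
      intro hj
      have ih' := ih (by omega)
      set N := (Finset.univ : Finset V).card with hN
      set U := chain G (n * τ + 2 * n) τ θ M j with hU
      have hU2 : N ≤ 2 * U.card := by
        have h1 : j * (8 * k * n + N) ≤ k * (8 * k * n + N) := Nat.mul_le_mul_right _ (by omega)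
        have h2 : k * (8 * k * N) ≤ k * (8 * k * U.card) + k * (k * (8 * k * n + N)) := by
          calc k * (8 * k * N) ≤ k * (8 * k * U.card + j * (8 * k * n + N)) :=
                Nat.mul_le_mul_left _ ih'
            _ ≤ k * (8 * k * U.card + k * (8 * k * n + N)) :=
                Nat.mul_le_mul_left _ (Nat.add_le_add_left h1 _)
            _ = _ := by ring
        have h3 : 8 * k * N ≤ 8 * k * U.card + k * (8 * k * n + N) := ih'.trans
          (Nat.add_le_add_left h1 _)
        have h4 : k * (8 * N) ≤ k * (8 * U.card + (8 * k * n + N)) := by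
          calc k * (8 * N) = 8 * k * N := by ring
            _ ≤ 8 * k * U.card + k * (8 * k * n + N) := h3
            _ = _ := by ring
        have h5 : 8 * N ≤ 8 * U.card + (8 * k * n + N) := Nat.le_of_mul_le_mul_left h4 hk
        omega
      have hlow : (low G (n * τ + 2 * n) U).card ≤ n :=
        (low_card G hJ _ U (by omega)).le
      have hheavy := heavy_card G hJ hDS τ M U
      have hheavy' : 8 * k * (heavy G (n * τ + 2 * n) τ θ M U).card ≤ N := by
        have h1 : (heavy G (n * τ + 2 * n) τ θ M U).card * (8 * k * σ) ≤ N * σ :=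
          (Nat.mul_le_mul_left _ hM).trans hheavy
        have h2 : (8 * k * (heavy G (n * τ + 2 * n) τ θ M U).card) * σ ≤ N * σ := by
          calc (8 * k * (heavy G (n * τ + 2 * n) τ θ M U).card) * σ
              = (heavy G (n * τ + 2 * n) τ θ M U).card * (8 * k * σ) := by ring
            _ ≤ _ := h1
        exact Nat.le_of_mul_le_mul_right h2 hσ
      have hstep : U.card ≤ (chain G (n * τ + 2 * n) τ θ M (j + 1)).card +
          ((low G (n * τ + 2 * n) U).card + (heavy G (n * τ + 2 * n) τ θ M U).card) := by
        have h1 : (chain G (n * τ + 2 * n) τ θ M (j + 1)) =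
          U \ (low G (n * τ + 2 * n) U ∪ heavy G (n * τ + 2 * n) τ θ M U) := by
          rw [chain]
        rw [h1]
        have h2 := Finset.le_card_sdiff
          (low G (n * τ + 2 * n) U ∪ heavy G (n * τ + 2 * n) τ θ M U) U
        have h3 := Finset.card_union_le (low G (n * τ + 2 * n) U)
          (heavy G (n * τ + 2 * n) τ θ M U)
        omega
      have hstep' : 8 * k * U.card ≤ 8 * k * (chain G (n * τ + 2 * n) τ θ M (j + 1)).card +
          (8 * k * n + N) := by
        calc 8 * k * U.card ≤ 8 * k * ((chain G (n * τ + 2 * n) τ θ M (j + 1)).card +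
          ((low G (n * τ + 2 * n) U).card + (heavy G (n * τ + 2 * n) τ θ M U).card)) :=
              Nat.mul_le_mul_left _ hstep
          _ = 8 * k * (chain G (n * τ + 2 * n) τ θ M (j + 1)).card +
              (8 * k * (low G (n * τ + 2 * n) U).card +
                8 * k * (heavy G (n * τ + 2 * n) τ θ M U).card) := by ring
          _ ≤ _ := by
              apply Nat.add_le_add_left
              exact Nat.add_le_add (Nat.mul_le_mul_left _ hlow) hheavy'
      calc 8 * k * N ≤ 8 * k * U.card + j * (8 * k * n + N) := ih'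
        _ ≤ (8 * k * (chain G (n * τ + 2 * n) τ θ M (j + 1)).card +
          (8 * k * n + N)) + j * (8 * k * n + N) := Nat.add_le_add_right hstep' _
        _ = _ := by ring
  intro j hj
  have h0 := key j hj
  set N := (Finset.univ : Finset V).card with hN
  set U := chain G (n * τ + 2 * n) τ θ M j with hU
  have h1 : j * (8 * k * n + N) ≤ k * (8 * k * n + N) := Nat.mul_le_mul_right _ (by omega)
  have h3 : 8 * k * N ≤ 8 * k * U.card + k * (8 * k * n + N) := h0.trans
    (Nat.add_le_add_left h1 _)
  have h4 : k * (8 * N) ≤ k * (8 * U.card + (8 * k * n + N)) := by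
    calc k * (8 * N) = 8 * k * N := by ring
      _ ≤ 8 * k * U.card + k * (8 * k * n + N) := h3
      _ = _ := by ring
  have h5 : 8 * N ≤ 8 * U.card + (8 * k * n + N) := Nat.le_of_mul_le_mul_left h4 hk
  omega

end Pool.Agent.H38.Ram
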