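import Pool.Agent.H38.Ram.Chain

set_option autoImplicit false
set_option linter.unusedSectionVars false

namespace Pool.Agent.H38.Ram

open Finset

variable {V : Type*} [DecidableEq V] [Fintype V] (G : SimpleGraph V) [DecidableRel G.Adj]

/-- Choosing the next vertex inside `X`. -/
lemma choose_next {n σ θ k : ℕ} (hJ : Joined G n)
    (hDS : ∀ D : Finset V, D.card ≤ n →
      (Finset.univ.filter (fun a => θ ≤ (nb G D a).card)).card ≤ σ)
    (τ M β jj : ℕ) (Z X : Finset V) (hZ : Z.card ≤ k) (hjj : jj ≤ k)
    (hZlow : ∀ z ∈ Z, ∀ j < jj,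
      z ∉ low G (n * τ + 2 * n) (chain G (n * τ + 2 * n) τ θ M j) ∧
      z ∉ heavy G (n * τ + 2 * n) τ θ M (chain G (n * τ + 2 * n) τ θ M j))
    (hXsub : X ⊆ chain G (n * τ + 2 * n) τ θ M jj)
    (hβ : ∀ z ∈ Z, ∀ j < jj, (X ∩ poor G τ (chain G (n * τ + 2 * n) τ θ M j) z).card ≤ β)
    (hX : k + k * k * (β + σ + M) < X.card) :
    ∃ x ∈ X, x ∉ Z ∧ ∀ z ∈ Z, ∀ j < jj,
      x ∉ poor G τ (chain G (n * τ + 2 * n) τ θ M j) z ∧
      x ∉ att G τ θ (chain G (n * τ + 2 * n) τ θ M j) z ∧
      z ∉ att G τ θ (chain G (n * τ + 2 * n) τ θ M j) x := by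
  classical
  set ch := chain G (n * τ + 2 * n) τ θ M with hch
  set Ef : V × ℕ → Finset V := fun p =>
    (X ∩ poor G τ (ch p.2) p.1) ∪ (att G τ θ (ch p.2) p.1 ∪
      (Finset.univ \ low G (n * τ + 2 * n) (ch p.2)).filter
        (fun v => p.1 ∈ att G τ θ (ch p.2) v)) with hEf
  set E := Z ∪ (Z ×ˢ Finset.range jj).biUnion Ef with hE
  have hEf_card : ∀ p ∈ Z ×ˢ Finset.range jj, (Ef p).card ≤ β + σ + M := by
    intro p hp
    rw [Finset.mem_product, Finset.mem_range] at hp
    have h1 := hβ p.1 hp.1 p.2 hp.2
    have h2 := hZlow p.1 hp.1 p.2 hp.2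
    have h3 : (att G τ θ (ch p.2) p.1).card ≤ σ := att_card G hJ hDS τ _ _ h2.1
    have h4 : ((Finset.univ \ low G (n * τ + 2 * n) (ch p.2)).filter
        (fun v => p.1 ∈ att G τ θ (ch p.2) v)).card ≤ M := by
      by_contra hc
      apply h2.2
      rw [heavy, Finset.mem_filter]
      exact ⟨Finset.mem_univ _, by omega⟩
    have h5 := Finset.card_union_le (X ∩ poor G τ (ch p.2) p.1) (att G τ θ (ch p.2) p.1 ∪
      (Finset.univ \ low G (n * τ + 2 * n) (ch p.2)).filter
        (fun v => p.1 ∈ att G τ θ (ch p.2) v))
    have h6 := Finset.card_union_le (att G τ θ (ch p.2) p.1)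
      ((Finset.univ \ low G (n * τ + 2 * n) (ch p.2)).filter
        (fun v => p.1 ∈ att G τ θ (ch p.2) v))
    have h7 : (Ef p).card = ((X ∩ poor G τ (ch p.2) p.1) ∪ (att G τ θ (ch p.2) p.1 ∪
      (Finset.univ \ low G (n * τ + 2 * n) (ch p.2)).filter
        (fun v => p.1 ∈ att G τ θ (ch p.2) v))).card := rfl
    omega
  have hE_card : E.card ≤ k + k * k * (β + σ + M) := by
    have h1 := Finset.card_union_le Z ((Z ×ˢ Finset.range jj).biUnion Ef)
    have h2 : ((Z ×ˢ Finset.range jj).biUnion Ef).card ≤ k * k * (β + σ + M) := by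
      refine (Finset.card_biUnion_le_card_mul _ _ _ hEf_card).trans ?_
      apply Nat.mul_le_mul_right
      rw [Finset.card_product, Finset.card_range]
      exact Nat.mul_le_mul hZ hjj
    rw [hE]
    omega
  have hex : ∃ x ∈ X, x ∉ E := by
    by_contra hc
    push Not at hc
    have := Finset.card_le_card (show X ⊆ E from hc)
    omega
  obtain ⟨x, hxX, hxE⟩ := hex
  rw [hE, Finset.mem_union, not_or] at hxE
  refine ⟨x, hxX, hxE.1, ?_⟩
  intro z hz j hj
  have h1 : x ∉ Ef (z, j) := by
    intro hx
    apply hxE.2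
    rw [Finset.mem_biUnion]
    exact ⟨(z, j), Finset.mem_product.2 ⟨hz, Finset.mem_range.2 hj⟩, hx⟩
  have hxlow : x ∉ low G (n * τ + 2 * n) (ch j) := (chain_not_mem G _ τ θ M hj (hXsub hxX)).1
  have h2 : x ∉ (X ∩ poor G τ (ch j) z) ∪ (att G τ θ (ch j) z ∪
      (Finset.univ \ low G (n * τ + 2 * n) (ch j)).filter
        (fun v => z ∈ att G τ θ (ch j) v)) := h1
  rw [Finset.mem_union, not_or, Finset.mem_union, not_or] at h2
  refine ⟨?_, h2.2.1, ?_⟩
  · intro h
    exact h2.1 (Finset.mem_inter.2 ⟨hxX, h⟩)
  · intro h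
    apply h2.2.2
    rw [Finset.mem_filter, Finset.mem_sdiff]
    exact ⟨⟨Finset.mem_univ _, hxlow⟩, h⟩

lemma chain_embed {n σ θ k : ℕ} (hJ : Joined G n)
    (hDS : ∀ D : Finset V, D.card ≤ n →
      (Finset.univ.filter (fun a => θ ≤ (nb G D a).card)).card ≤ σ)
    (τ M : ℕ) (hσ : 1 ≤ σ) (hk : 1 ≤ k) (hM : 8 * k * σ ≤ M)
    (hN1 : 2 * (n * (n * τ + 2 * n) + 2 * n) ≤ (Finset.univ : Finset V).card)
    (hN2 : 8 * k * n ≤ 3 * (Finset.univ : Finset V).card)
    (hτ : k + k * k * (θ + σ + M) < τ)
    (hn1 : k + k * k * (n + σ + M) < n * τ + 2 * n)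
    (hN3 : 2 * (k + k * k * (n + σ + M)) < (Finset.univ : Finset V).card)
    (H : SimpleGraph (Fin k)) (f : Fin k → ℕ) (hf : Function.Injective f)
    (hback : ∀ v : Fin k, Set.ncard {u : Fin k | H.Adj u v ∧ f u < f v} ≤ 2) :
    H.IsContained G := by
  classical
  have hVne : (Finset.univ : Finset V).Nonempty := by
    rw [← Finset.card_pos]; omega
  obtain ⟨v₀, _⟩ := hVne
  set ch := chain G (n * τ + 2 * n) τ θ M with hch
  let Inv : Finset (Fin k) → (Fin k → V) → Prop := fun S φ =>
    (∀ u ∈ S, ∀ v ∈ S, φ u = φ v → u = v) ∧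
    (∀ u ∈ S, φ u ∈ ch (k - S.card)) ∧
    (∀ u ∈ S, ∀ v ∈ S, H.Adj u v → G.Adj (φ u) (φ v)) ∧
    (∀ u ∈ S, ∀ w ∈ S, u ≠ w → ∀ j < k - S.card,
      τ ≤ (cn G (ch j) (φ u) (φ w)).card ∧ φ u ∉ att G τ θ (ch j) (φ w))
  have hmain : ∃ φ : Fin k → V, Inv Finset.univ φ := by
    refine greedy f hf Inv (fun _ => v₀) ?_ ?_
    · refine ⟨?_, ?_, ?_, ?_⟩ <;> intro u hu <;> simp at hu
    · intro v φ hInv
      obtain ⟨hinj, hmem, hadj, hpair⟩ := hInv
      set S := Finset.univ.filter (fun u => f u < f v) with hS
      set B : Finset (Fin k) := Finset.univ.filter (fun u => H.Adj u v ∧ f u < f v) with hB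
      have hBset : (B : Set (Fin k)) = {u : Fin k | H.Adj u v ∧ f u < f v} := by
        ext u; simp [hB]
      have hBS : B ⊆ S := by
        intro u hu
        rw [hB, Finset.mem_filter] at hu
        rw [hS, Finset.mem_filter]
        exact ⟨hu.1, hu.2.2⟩
      have hBcard : B.card ≤ 2 := by
        have := hback v
        rw [← hBset, Set.ncard_coe_finset] at this
        exact this
      have hvS : v ∉ S := by
        rw [hS, Finset.mem_filter]
        intro h
        omega
      have hScard : S.card < k := by
        have h1 : S ⊂ Finset.univ := by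
          rw [Finset.ssubset_univ_iff]
          intro h
          exact hvS (by rw [h]; exact Finset.mem_univ _)
        have h2 := Finset.card_lt_card h1
        rw [Finset.card_univ, Fintype.card_fin] at h2
        exact h2
      set jj := k - S.card - 1 with hjj
      have hjj1 : k - S.card = jj + 1 := by omega
      have hjjk : jj ≤ k := by omega
      have hScard' : (insert v S).card = S.card + 1 := Finset.card_insert_of_notMem hvS
      have hjj2 : k - (insert v S).card = jj := by rw [hScard']; omega
      set Z := S.image φ with hZdef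
      have hZ : Z.card ≤ k := by
        have h3 : (S.image φ).card ≤ S.card := Finset.card_image_le
        rw [hZdef]
        omega
      have hZlow' : ∀ z ∈ Z, ∀ j < jj + 1, z ∉ low G (n * τ + 2 * n) (ch j) ∧
          z ∉ heavy G (n * τ + 2 * n) τ θ M (ch j) := by
        intro z hz j hj
        rw [hZdef, Finset.mem_image] at hz
        obtain ⟨u, hu, rfl⟩ := hz
        have h1 := hmem u hu
        rw [hjj1] at h1
        exact chain_not_mem G _ τ θ M hj h1
      have hZlow : ∀ z ∈ Z, ∀ j < jj, z ∉ low G (n * τ + 2 * n) (ch j) ∧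
          z ∉ heavy G (n * τ + 2 * n) τ θ M (ch j) :=
        fun z hz j hj => hZlow' z hz j (by omega)
      have hpoor_n : ∀ X : Finset V, ∀ z ∈ Z, ∀ j < jj, (X ∩ poor G τ (ch j) z).card ≤ n := by
        intro X z hz j hj
        refine (Finset.card_le_card Finset.inter_subset_right).trans ?_
        exact (poor_card G hJ τ _ _ (hZlow z hz j hj).1).le
      -- the next vertex
      have hnext : ∃ x ∈ ch jj, (∀ b ∈ B, G.Adj (φ b) x) ∧ x ∉ Z ∧ ∀ z ∈ Z, ∀ j < jj,
          x ∉ poor G τ (ch j) z ∧ x ∉ att G τ θ (ch j) z ∧ z ∉ att G τ θ (ch j) x := by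
        have h3 : B.card = 0 ∨ B.card = 1 ∨ B.card = 2 := by omega
        rcases h3 with h | h | h
        · rw [Finset.card_eq_zero] at h
          have hU : (Finset.univ : Finset V).card ≤ 2 * (ch jj).card :=
            chain_card G hJ hDS τ M hσ hk hM hN1 hN2 jj hjjk
          obtain ⟨x, hx, hx1, hx2⟩ := choose_next G hJ hDS τ M n jj Z (ch jj) hZ hjjk hZlow
            subset_rfl (hpoor_n _) (by omega)
          exact ⟨x, hx, by rw [h]; simp, hx1, hx2⟩
        · rw [Finset.card_eq_one] at h
          obtain ⟨b, hb⟩ := h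
          have hbS : b ∈ S := hBS (by rw [hb]; simp)
          have hbZ : φ b ∈ Z := Finset.mem_image_of_mem _ hbS
          have h4 := (hZlow' (φ b) hbZ jj (by omega)).1
          rw [not_mem_low] at h4
          obtain ⟨x, hx, hx1, hx2⟩ := choose_next G hJ hDS τ M n jj Z (nb G (ch jj) (φ b)) hZ hjjk
            hZlow (nb_subset G _ _) (hpoor_n _) (by omega)
          rw [mem_nb] at hx
          refine ⟨x, hx.1, ?_, hx1, hx2⟩
          intro b' hb'
          rw [hb, Finset.mem_singleton] at hb'
          rw [hb']
          exact hx.2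
        · rw [Finset.card_eq_two] at h
          obtain ⟨b, c, hbc, hb⟩ := h
          have hbS : b ∈ S := hBS (by rw [hb]; simp)
          have hcS : c ∈ S := hBS (by rw [hb]; simp)
          have h4 := (hpair b hbS c hcS hbc jj (by omega)).1
          have hβ : ∀ z ∈ Z, ∀ j < jj,
              (cn G (ch jj) (φ b) (φ c) ∩ poor G τ (ch j) z).card ≤ θ := by
            intro z hz j hj
            rw [hZdef, Finset.mem_image] at hz
            obtain ⟨w, hw, rfl⟩ := hz
            by_cases hwb : w = b
            · have hcw : c ≠ w := by rw [hwb]; exact hbc.symm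
              have h5 := (hpair c hcS w hw hcw j (by omega)).2
              rw [mem_att, not_le] at h5
              refine le_trans (Finset.card_le_card ?_) h5.le
              intro y hy
              rw [Finset.mem_inter, mem_cn] at hy
              rw [mem_nb]
              exact ⟨hy.2, hy.1.2.2⟩
            · have hbw : b ≠ w := fun h => hwb h.symm
              have h5 := (hpair b hbS w hw hbw j (by omega)).2
              rw [mem_att, not_le] at h5
              refine le_trans (Finset.card_le_card ?_) h5.le
              intro y hy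
              rw [Finset.mem_inter, mem_cn] at hy
              rw [mem_nb]
              exact ⟨hy.2, hy.1.2.1⟩
          obtain ⟨x, hx, hx1, hx2⟩ := choose_next G hJ hDS τ M θ jj Z
            (cn G (ch jj) (φ b) (φ c)) hZ hjjk hZlow
            (fun w hw => ((mem_cn G).1 hw).1) hβ (by omega)
          rw [mem_cn] at hx
          refine ⟨x, hx.1, ?_, hx1, hx2⟩
          intro b' hb'
          rw [hb] at hb'
          simp only [Finset.mem_insert, Finset.mem_singleton] at hb'
          rcases hb' with rfl | rfl
          · exact hx.2.1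
          · exact hx.2.2
      obtain ⟨z, hzch, hzB, hzZ, hzrel⟩ := hnext
      have hup : ∀ u ∈ S, Function.update φ v z u = φ u := by
        intro u hu
        apply Function.update_of_ne
        rintro rfl
        exact hvS hu
      have hupv : Function.update φ v z v = z := Function.update_self _ _ _
      have hzne : ∀ u ∈ S, φ u ≠ z := by
        intro u hu h
        exact hzZ (Finset.mem_image.2 ⟨u, hu, h⟩)
      have hzadj : ∀ u ∈ S, H.Adj u v → G.Adj (φ u) z := by
        intro u hu huv
        exact hzB u (by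
          rw [hB, Finset.mem_filter]
          exact ⟨Finset.mem_univ _, huv, (Finset.mem_filter.1 hu).2⟩)
      refine ⟨z, ?_, ?_, ?_, ?_⟩
      · intro u hu w hw huw
        rw [Finset.mem_insert] at hu hw
        rcases hu with rfl | hu
        · rcases hw with rfl | hw
          · rfl
          · rw [hupv, hup w hw] at huw
            exact absurd huw.symm (hzne w hw)
        · rcases hw with rfl | hw
          · rw [hupv, hup u hu] at huw
            exact absurd huw (hzne u hu)
          · rw [hup u hu, hup w hw] at huw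
            exact hinj u hu w hw huw
      · intro u hu
        rw [hjj2]
        rw [Finset.mem_insert] at hu
        rcases hu with rfl | hu
        · rw [hupv]; exact hzch
        · rw [hup u hu]
          have h1 := hmem u hu
          rw [hjj1] at h1
          exact chain_anti G _ τ θ M (Nat.le_succ jj) h1
      · intro u hu w hw huw
        rw [Finset.mem_insert] at hu hw
        rcases hu with rfl | hu
        · rcases hw with rfl | hw
          · exact absurd rfl huw.ne
          · rw [hupv, hup w hw]
            exact (hzadj w hw huw.symm).symm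
        · rcases hw with rfl | hw
          · rw [hupv, hup u hu]
            exact hzadj u hu huw
          · rw [hup u hu, hup w hw]
            exact hadj u hu w hw huw
      · intro u hu w hw huw j hj
        rw [hjj2] at hj
        rw [Finset.mem_insert] at hu hw
        rcases hu with rfl | hu
        · rcases hw with rfl | hw
          · exact absurd rfl huw
          · rw [hupv, hup w hw]
            have h1 := hzrel (φ w) (Finset.mem_image_of_mem _ hw) j hj
            refine ⟨?_, h1.2.1⟩
            have h2 := h1.1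
            rw [mem_poor, not_lt, cn_comm] at h2
            exact h2
        · rcases hw with rfl | hw
          · rw [hupv, hup u hu]
            have h1 := hzrel (φ u) (Finset.mem_image_of_mem _ hu) j hj
            refine ⟨?_, h1.2.2⟩
            have h2 := h1.1
            rw [mem_poor, not_lt] at h2
            exact h2
          · rw [hup u hu, hup w hw]
            exact hpair u hu w hw huw j (by omega)
  obtain ⟨φ, hinj, _, hadj, _⟩ := hmain
  have hinj' : Function.Injective φ := fun u v h =>
    hinj u (Finset.mem_univ _) v (Finset.mem_univ _) h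
  refine ⟨⟨⟨φ, ?_⟩, hinj'⟩⟩
  intro u v huv
  exact hadj u (Finset.mem_univ _) v (Finset.mem_univ _) huv

end Pool.Agent.H38.Ram
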