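import Pool.Agent.H38.Ram.Base

set_option autoImplicit false
set_option linter.unusedSectionVars false

namespace Pool.Agent.H38.Ram

open Finset

variable {V : Type*} [DecidableEq V] (G : SimpleGraph V) [DecidableRel G.Adj]

/-- Ordered `r`-cliques inside `W`. -/
def oc (r : ℕ) (W : Finset V) : Finset (Fin r → V) :=
  (Fintype.piFinset (fun _ => W)).filter (fun g => ∀ i j, i ≠ j → G.Adj (g i) (g j))

lemma mem_oc {r : ℕ} {W : Finset V} {g : Fin r → V} :
    g ∈ oc G r W ↔ (∀ i, g i ∈ W) ∧ ∀ i j, i ≠ j → G.Adj (g i) (g j) := by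
  simp [oc]

lemma oc_mono {r : ℕ} {W W' : Finset V} (h : W ⊆ W') : oc G r W ⊆ oc G r W' := by
  intro g hg
  rw [mem_oc] at hg ⊢
  exact ⟨fun i => h (hg.1 i), hg.2⟩

lemma card_oc_zero (W : Finset V) : (oc G 0 W).card = 1 := by
  rw [Finset.card_eq_one]
  refine ⟨Fin.elim0, ?_⟩
  ext g
  rw [mem_oc, Finset.mem_singleton]
  constructor
  · intro _
    exact Subsingleton.elim _ _
  · intro _
    exact ⟨fun i => i.elim0, fun i => i.elim0⟩

lemma card_oc_succ (r : ℕ) (W : Finset V) :
    (oc G (r + 1) W).card = ∑ v ∈ W, (oc G r (nb G W v)).card := by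
  classical
  have hmaps : ∀ g ∈ oc G (r + 1) W, g 0 ∈ W := by
    intro g hg
    rw [mem_oc] at hg
    exact hg.1 0
  rw [Finset.card_eq_sum_card_fiberwise (f := fun g : Fin (r + 1) → V => g 0) (t := W) hmaps]
  refine Finset.sum_congr rfl ?_
  intro v hv
  refine Finset.card_bij' (fun g _ => Fin.tail g) (fun g _ => Fin.cons v g) ?_ ?_ ?_ ?_
  · intro g hg
    rw [Finset.mem_filter, mem_oc] at hg
    obtain ⟨⟨h1, h2⟩, h3⟩ := hg
    rw [mem_oc]
    refine ⟨?_, ?_⟩
    · intro i
      rw [mem_nb]
      refine ⟨h1 _, ?_⟩
      have := h2 0 i.succ (Fin.succ_ne_zero i).symm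
      rw [h3] at this
      exact this
    · intro i j hij
      exact h2 _ _ (fun h => hij (Fin.succ_injective _ h))
  · intro g hg
    rw [mem_oc] at hg
    obtain ⟨h1, h2⟩ := hg
    rw [Finset.mem_filter, mem_oc]
    refine ⟨⟨?_, ?_⟩, ?_⟩
    · intro i
      refine Fin.cases ?_ ?_ i
      · simpa using hv
      · intro j
        simpa using ((mem_nb G).1 (h1 j)).1
    · intro i j
      refine Fin.cases ?_ ?_ i
      · refine Fin.cases ?_ ?_ j
        · intro h; exact absurd rfl h
        · intro j _
          simpa using ((mem_nb G).1 (h1 j)).2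
      · intro i
        refine Fin.cases ?_ ?_ j
        · intro _
          simpa using ((mem_nb G).1 (h1 i)).2.symm
        · intro j h
          simpa using h2 i j (fun hh => h (by rw [hh]))
    · simp
  · intro g hg
    rw [Finset.mem_filter] at hg
    have : v = g 0 := hg.2.symm
    rw [this]
    exact Fin.cons_self_tail g
  · intro g hg
    exact Fin.tail_cons _ _

lemma card_oc_one (W : Finset V) : (oc G 1 W).card = W.card := by
  rw [card_oc_succ]
  simp [card_oc_zero]

/-- The clique-count inequality. -/
lemma clique_count {n : ℕ} (hJ : Joined G n) (hn : 1 ≤ n) :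
    ∀ (r : ℕ) (W : Finset V), 4 * 8 ^ r * n ^ r ≤ W.card →
      W.card * (oc G r W).card ≤ 8 ^ r * n ^ r * (oc G (r + 1) W).card := by
  intro r
  induction r with
  | zero =>
    intro W _
    rw [card_oc_zero, card_oc_one]
    simp
  | succ r ih =>
    intro W hW
    have hnr : 1 ≤ n ^ r := Nat.one_le_pow _ _ hn
    have h8r : 1 ≤ 8 ^ r := Nat.one_le_pow _ _ (by norm_num)
    set P := 8 ^ r * n ^ r with hP
    have hP1 : 1 ≤ P := Nat.mul_le_mul h8r hnr
    have hWP : 32 * (n * P) ≤ W.card := by
      have : 4 * 8 ^ (r + 1) * n ^ (r + 1) = 32 * (n * P) := by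
        rw [hP]; ring
      omega
    have hnP : P ≤ n * P := Nat.le_mul_of_pos_left _ hn
    have hnP' : n ≤ n * P := Nat.le_mul_of_pos_right _ hP1
    have hIHW := ih W (by
      have : 4 * 8 ^ r * n ^ r = 4 * P := by rw [hP]; ring
      omega)
    -- 32 n oc_r ≤ oc_{r+1}
    have hgrow : 32 * (n * (oc G r W).card) ≤ (oc G (r + 1) W).card := by
      have h1 : 32 * (n * P) * (oc G r W).card ≤ P * (oc G (r + 1) W).card :=
        (Nat.mul_le_mul_right _ hWP).trans hIHW
      have h2 : P * (32 * (n * (oc G r W).card)) ≤ P * (oc G (r + 1) W).card := by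
        calc P * (32 * (n * (oc G r W).card)) = 32 * (n * P) * (oc G r W).card := by ring
          _ ≤ _ := h1
      exact Nat.le_of_mul_le_mul_left h2 hP1
    set L := W.filter (fun v => 4 * n * (nb G W v).card < W.card) with hL
    have hLcard : L.card < n := by
      refine few_low G hJ W L ((W.card - 1) / (4 * n)) ?_ ?_
      · intro v hv
        rw [hL, Finset.mem_filter] at hv
        rw [Nat.le_div_iff_mul_le (by omega)]
        have := hv.2
        have h3 : (nb G W v).card * (4 * n) = 4 * n * (nb G W v).card := by ring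
        omega
      · have h3 : (4 * n) * ((W.card - 1) / (4 * n)) ≤ W.card - 1 := Nat.mul_div_le _ _
        have h4 : (4 * n) * ((W.card - 1) / (4 * n)) = 4 * (n * ((W.card - 1) / (4 * n))) := by ring
        omega
    have hLW : L ⊆ W := Finset.filter_subset _ _
    -- split the sum
    have hsplit : (oc G (r + 1) W).card =
        ∑ v ∈ W \ L, (oc G r (nb G W v)).card + ∑ v ∈ L, (oc G r (nb G W v)).card := by
      rw [card_oc_succ, Finset.sum_sdiff hLW]
    have hLsum : ∑ v ∈ L, (oc G r (nb G W v)).card ≤ n * (oc G r W).card := by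
      calc ∑ v ∈ L, (oc G r (nb G W v)).card ≤ ∑ v ∈ L, (oc G r W).card :=
            Finset.sum_le_sum (fun v _ => Finset.card_le_card (oc_mono G (nb_subset G W v)))
        _ = L.card * (oc G r W).card := by rw [Finset.sum_const, smul_eq_mul]
        _ ≤ _ := Nat.mul_le_mul_right _ hLcard.le
    have hhalf : (oc G (r + 1) W).card ≤ 2 * ∑ v ∈ W \ L, (oc G r (nb G W v)).card := by
      omega
    have hbig : W.card * ∑ v ∈ W \ L, (oc G r (nb G W v)).card ≤
        4 * (n * P) * (oc G (r + 2) W).card := by
      rw [Finset.mul_sum]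
      calc ∑ v ∈ W \ L, W.card * (oc G r (nb G W v)).card
          ≤ ∑ v ∈ W \ L, 4 * (n * P) * (oc G (r + 1) (nb G W v)).card := by
            refine Finset.sum_le_sum ?_
            intro v hv
            rw [Finset.mem_sdiff, hL, Finset.mem_filter] at hv
            have hd : W.card ≤ 4 * n * (nb G W v).card := by
              by_contra hc
              exact hv.2 ⟨hv.1, by omega⟩
            have hd2 : 4 * 8 ^ r * n ^ r ≤ (nb G W v).card := by
              have h5 : (4 * n) * (8 * P) ≤ (4 * n) * (nb G W v).card := by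
                calc (4 * n) * (8 * P) = 32 * (n * P) := by ring
                  _ ≤ W.card := hWP
                  _ ≤ _ := hd
              have h6 : 8 * P ≤ (nb G W v).card := Nat.le_of_mul_le_mul_left h5 (by omega)
              have : 4 * 8 ^ r * n ^ r = 4 * P := by rw [hP]; ring
              omega
            have hih := ih (nb G W v) hd2
            calc W.card * (oc G r (nb G W v)).card
                ≤ 4 * n * (nb G W v).card * (oc G r (nb G W v)).card :=
                  Nat.mul_le_mul_right _ hd
              _ = 4 * n * ((nb G W v).card * (oc G r (nb G W v)).card) := by ring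
              _ ≤ 4 * n * (P * (oc G (r + 1) (nb G W v)).card) :=
                  Nat.mul_le_mul_left _ hih
              _ = _ := by ring
        _ = 4 * (n * P) * ∑ v ∈ W \ L, (oc G (r + 1) (nb G W v)).card := by
            rw [Finset.mul_sum]
        _ ≤ 4 * (n * P) * (oc G (r + 2) W).card := by
            apply Nat.mul_le_mul_left
            rw [card_oc_succ G (r + 1) W]
            exact Finset.sum_le_sum_of_subset Finset.sdiff_subset
    calc W.card * (oc G (r + 1) W).card
        ≤ W.card * (2 * ∑ v ∈ W \ L, (oc G r (nb G W v)).card) := Nat.mul_le_mul_left _ hhalf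
      _ = 2 * (W.card * ∑ v ∈ W \ L, (oc G r (nb G W v)).card) := by ring
      _ ≤ 2 * (4 * (n * P) * (oc G (r + 2) W).card) := Nat.mul_le_mul_left _ hbig
      _ = 8 ^ (r + 1) * n ^ (r + 1) * (oc G (r + 1 + 1) W).card := by rw [hP]; ring

/-- Cleaning: a family of `(r+1)`-tuples much larger than its set of punctured tuples contains a
nonempty subfamily in which every puncture can be filled in at least `t` ways. -/
lemma cleaning {r : ℕ} (t : ℕ) (F : Finset (Fin (r + 1) → V))
    (hF : t * ((Finset.univ ×ˢ F).image
      (fun p : Fin (r + 1) × (Fin (r + 1) → V) => (p.1, p.1.removeNth p.2))).card < F.card) :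
    ∃ F' ⊆ F, F'.Nonempty ∧ ∀ g ∈ F', ∀ i : Fin (r + 1),
      t ≤ (F'.filter (fun g' => i.removeNth g' = i.removeNth g)).card := by
  classical
  induction F using Finset.strongInduction with
  | H F ih =>
    by_cases hgood : ∀ g ∈ F, ∀ i : Fin (r + 1),
      t ≤ (F.filter (fun g' => i.removeNth g' = i.removeNth g)).card
    · refine ⟨F, subset_rfl, ?_, hgood⟩
      rw [← Finset.card_pos]
      omega
    · push Not at hgood
      obtain ⟨g, hg, i, hgi⟩ := hgood
      set B := F.filter (fun g' => i.removeNth g' = i.removeNth g) with hB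
      set F1 := F \ B with hF1
      have hBF : B ⊆ F := Finset.filter_subset _ _
      have hgB : g ∈ B := by rw [hB, Finset.mem_filter]; exact ⟨hg, rfl⟩
      have hss : F1 ⊂ F := by
        rw [Finset.ssubset_iff_of_subset Finset.sdiff_subset]
        exact ⟨g, hg, fun h => (Finset.mem_sdiff.1 h).2 hgB⟩
      have hcard : F1.card + B.card = F.card := by
        rw [hF1]
        exact Finset.card_sdiff_add_card_eq_card hBF
      set S := fun F : Finset (Fin (r + 1) → V) => (Finset.univ ×ˢ F).image
        (fun p : Fin (r + 1) × (Fin (r + 1) → V) => (p.1, p.1.removeNth p.2)) with hS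
      have hSsub : S F1 ⊆ (S F).erase (i, i.removeNth g) := by
        intro x hx
        rw [hS, Finset.mem_image] at hx
        obtain ⟨⟨j, g'⟩, hp, rfl⟩ := hx
        rw [Finset.mem_product] at hp
        have hg' : g' ∈ F1 := hp.2
        rw [hF1, Finset.mem_sdiff] at hg'
        rw [Finset.mem_erase]
        constructor
        · intro heq
          rw [Prod.mk.injEq] at heq
          obtain ⟨h1, h2⟩ := heq
          apply hg'.2
          rw [hB, Finset.mem_filter]
          refine ⟨hg'.1, ?_⟩
          have h1' : j = i := h1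
          subst h1'
          exact h2
        · rw [hS, Finset.mem_image]
          exact ⟨(j, g'), Finset.mem_product.2 ⟨Finset.mem_univ _, hg'.1⟩, rfl⟩
      have hmem : (i, i.removeNth g) ∈ S F := by
        rw [hS, Finset.mem_image]
        exact ⟨(i, g), Finset.mem_product.2 ⟨Finset.mem_univ _, hg⟩, rfl⟩
      have hScard : (S F1).card + 1 ≤ (S F).card := by
        have h1 := Finset.card_le_card hSsub
        have h2 := Finset.card_erase_add_one hmem
        omega
      have hlt : t * (S F1).card < F1.card := by
        have h1 : t * ((S F1).card + 1) ≤ t * (S F).card := Nat.mul_le_mul_left _ hScard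
        have h2 : t * (S F).card < F.card := hF
        have h3 : t * ((S F1).card + 1) = t * (S F1).card + t := by ring
        omega
      obtain ⟨F', hF', hne, hprop⟩ := ih F1 hss hlt
      exact ⟨F', hF'.trans Finset.sdiff_subset, hne, hprop⟩

end Pool.Agent.H38.Ram
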