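import Mathlib

set_option autoImplicit false

namespace Pool.Agent.H38.Ram

open Finset

/-- Induction along an injective ordering of the vertices. -/
lemma greedy {α β : Type*} [Fintype α] [DecidableEq α] (f : α → ℕ) (hf : Function.Injective f)
    (Inv : Finset α → (α → β) → Prop) (φ₀ : α → β) (h0 : Inv ∅ φ₀)
    (hstep : ∀ (v : α) (φ : α → β), Inv (Finset.univ.filter (fun u => f u < f v)) φ →
      ∃ x : β, Inv (insert v (Finset.univ.filter (fun u => f u < f v))) (Function.update φ v x)) :
    ∃ φ : α → β, Inv Finset.univ φ := by
  have key : ∀ m : ℕ, ∃ φ : α → β, Inv (Finset.univ.filter (fun u => f u < m)) φ := by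
    intro m
    induction m with
    | zero =>
      refine ⟨φ₀, ?_⟩
      have : (Finset.univ.filter (fun u => f u < 0)) = ∅ := by
        simp
      rw [this]
      exact h0
    | succ m ih =>
      obtain ⟨φ, hφ⟩ := ih
      by_cases hm : ∃ v, f v = m
      · obtain ⟨v, rfl⟩ := hm
        obtain ⟨x, hx⟩ := hstep v φ hφ
        refine ⟨Function.update φ v x, ?_⟩
        have : (Finset.univ.filter (fun u => f u < f v + 1)) =
            insert v (Finset.univ.filter (fun u => f u < f v)) := by
          ext u
          simp only [Finset.mem_filter, Finset.mem_univ, true_and, Finset.mem_insert]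
          constructor
          · intro h
            rcases Nat.lt_succ_iff_lt_or_eq.1 h with h | h
            · exact Or.inr h
            · exact Or.inl (hf h)
          · rintro (rfl | h)
            · exact Nat.lt_succ_self _
            · omega
        rw [this]
        exact hx
      · refine ⟨φ, ?_⟩
        have : (Finset.univ.filter (fun u => f u < m + 1)) =
            (Finset.univ.filter (fun u => f u < m)) := by
          ext u
          simp only [Finset.mem_filter, Finset.mem_univ, true_and]
          constructor
          · intro h
            rcases Nat.lt_succ_iff_lt_or_eq.1 h with h | h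
            · exact h
            · exact absurd ⟨u, h⟩ hm
          · intro h
            omega
        rw [this]
        exact hφ
  obtain ⟨φ, hφ⟩ := key (Finset.univ.sup f + 1)
  refine ⟨φ, ?_⟩
  have : (Finset.univ.filter (fun u => f u < Finset.univ.sup f + 1)) = Finset.univ := by
    ext u
    simp only [Finset.mem_filter, Finset.mem_univ, true_and, iff_true]
    exact Nat.lt_succ_of_le (Finset.le_sup (Finset.mem_univ u))
  rw [this] at hφ
  exact hφ

end Pool.Agent.H38.Ram
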