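import Pool.Agent.H38.Ram.Base
import Pool.Agent.H38.Ram.Greedy

set_option autoImplicit false
set_option linter.unusedSectionVars false

namespace Pool.Agent.H38.Ram

open Finset

variable {V : Type*} [DecidableEq V] (G : SimpleGraph V) [DecidableRel G.Adj]

/-- Common neighbours in `D` of two vertices. -/
def cn (D : Finset V) (u v : V) : Finset V := nb G (nb G D u) v

lemma mem_cn {D : Finset V} {u v w : V} : w ∈ cn G D u v ↔ w ∈ D ∧ G.Adj u w ∧ G.Adj v w := by
  simp [cn, nb, and_assoc]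

lemma cn_comm (D : Finset V) (u v : V) : cn G D u v = cn G D v u := by
  ext w
  rw [mem_cn, mem_cn]
  tauto

/-- Common neighbours in `D` of a tuple. -/
def cnt {m : ℕ} (D : Finset V) (x : Fin m → V) : Finset V :=
  D.filter (fun d => ∀ i, G.Adj (x i) d)

lemma mem_cnt {m : ℕ} {D : Finset V} {x : Fin m → V} {d : V} :
    d ∈ cnt G D x ↔ d ∈ D ∧ ∀ i, G.Adj (x i) d := by
  simp [cnt]

/-- Double counting: tuples against common neighbours. -/
lemma sum_cnt_card (t : ℕ) {ι : Type*} [DecidableEq ι] (D : Finset V) (X : Finset ι)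
    (m : ℕ) (x : ι → Fin m → V) :
    ∑ T ∈ Fintype.piFinset (fun _ : Fin t => D),
      (X.filter (fun a => ∀ i j, G.Adj (x a i) (T j))).card =
    ∑ a ∈ X, (cnt G D (x a)).card ^ t := by
  have h := Finset.sum_card_bipartiteAbove_eq_sum_card_bipartiteBelow
    (s := Fintype.piFinset (fun _ : Fin t => D)) (t := X)
    (fun (T : Fin t → V) (a : ι) => ∀ i j, G.Adj (x a i) (T j))
  simp only [Finset.bipartiteAbove, Finset.bipartiteBelow] at h
  rw [h]
  refine Finset.sum_congr rfl ?_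
  intro a _
  have : ((Fintype.piFinset (fun _ : Fin t => D)).filter
      (fun T => ∀ i j, G.Adj (x a i) (T j))) =
      Fintype.piFinset (fun _ : Fin t => cnt G D (x a)) := by
    ext T
    simp only [Finset.mem_filter, Fintype.mem_piFinset, mem_cnt]
    constructor
    · rintro ⟨h1, h2⟩ j
      exact ⟨h1 j, fun i => h2 i j⟩
    · intro h
      exact ⟨fun j => (h j).1, fun i j => (h j).2 i⟩
  rw [this, Fintype.card_piFinset]
  simp

/-- First dependent random choice. -/
lemma drc_one (h K s : ℕ) (hh : 1 ≤ h) (hK : 1 ≤ K) (hs : 1 ≤ s)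
    (A D : Finset V) (hA : A.card = s ^ 8) (hD : D.card ≤ s ^ 9)
    (hdeg : ∀ a ∈ A, K * s ^ 8 ≤ (nb G D a).card) :
    ∃ A1 ⊆ A, K ^ 4 * s ^ 4 ≤ 2 * A1.card ∧
      K ^ 4 * ((Fintype.piFinset (fun _ : Fin 7 => A1)).filter
        (fun x => (cnt G D x).card < h)).card ≤ 2 * h ^ 4 * s ^ 16 * A1.card := by
  classical
  set A1 : (Fin 4 → V) → Finset V := fun T => A.filter (fun a => ∀ j, G.Adj a (T j)) with hA1
  set bad : (Fin 4 → V) → ℕ := fun T => ((Fintype.piFinset (fun _ : Fin 7 => A1 T)).filter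
        (fun x => (cnt G D x).card < h)).card with hbad
  -- sum of |A1|
  have hsum1 : K ^ 4 * s ^ 40 ≤ ∑ T ∈ Fintype.piFinset (fun _ : Fin 4 => D), (A1 T).card := by
    have h1 := sum_cnt_card G 4 D A 1 (fun a _ => a)
    have h2 : ∑ T ∈ Fintype.piFinset (fun _ : Fin 4 => D), (A1 T).card =
        ∑ a ∈ A, (cnt G D (fun _ : Fin 1 => a)).card ^ 4 := by
      rw [← h1]
      refine Finset.sum_congr rfl ?_
      intro T _
      congr 1
      ext a
      simp [hA1]
    rw [h2]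
    calc K ^ 4 * s ^ 40 = ∑ a ∈ A, (K * s ^ 8) ^ 4 := by
          rw [Finset.sum_const, hA, smul_eq_mul]; ring
      _ ≤ _ := by
          refine Finset.sum_le_sum ?_
          intro a ha
          apply Nat.pow_le_pow_left
          refine (hdeg a ha).trans (le_of_eq ?_)
          congr 1
          ext d
          simp [nb, cnt]
  have hsum2 : ∑ T ∈ Fintype.piFinset (fun _ : Fin 4 => D), bad T ≤ h ^ 4 * s ^ 56 := by
    set X := (Fintype.piFinset (fun _ : Fin 7 => A)).filter (fun x => (cnt G D x).card < h) with hX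
    have h1 := sum_cnt_card G 4 D X 7 (fun x => x)
    have h2 : ∑ T ∈ Fintype.piFinset (fun _ : Fin 4 => D), bad T =
        ∑ x ∈ X, (cnt G D x).card ^ 4 := by
      rw [← h1]
      refine Finset.sum_congr rfl ?_
      intro T _
      have hset : ((Fintype.piFinset (fun _ : Fin 7 => A1 T)).filter
          (fun x => (cnt G D x).card < h)) =
          (X.filter (fun a => ∀ i j, G.Adj (a i) (T j))) := by
        ext x
        simp only [Finset.mem_filter, Fintype.mem_piFinset, hA1, hX]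
        constructor
        · rintro ⟨h3, h4⟩
          exact ⟨⟨fun i => (h3 i).1, h4⟩, fun i j => (h3 i).2 j⟩
        · rintro ⟨⟨h3, h4⟩, h5⟩
          exact ⟨fun i => ⟨h3 i, fun j => h5 i j⟩, h4⟩
      exact congrArg Finset.card hset
    rw [h2]
    calc ∑ x ∈ X, (cnt G D x).card ^ 4 ≤ ∑ x ∈ X, h ^ 4 := by
          refine Finset.sum_le_sum ?_
          intro x hx
          rw [hX, Finset.mem_filter] at hx
          exact Nat.pow_le_pow_left hx.2.le 4
      _ = X.card * h ^ 4 := by rw [Finset.sum_const, smul_eq_mul]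
      _ ≤ s ^ 56 * h ^ 4 := by
          apply Nat.mul_le_mul_right
          refine (Finset.card_filter_le _ _).trans ?_
          rw [Fintype.card_piFinset]
          simp only [Finset.prod_const, Finset.card_univ, Fintype.card_fin, hA]
          rw [← pow_mul]
      _ = _ := by ring
  -- number of T
  have hT : ((Fintype.piFinset (fun _ : Fin 4 => D)).card : ℕ) ≤ s ^ 36 := by
    rw [Fintype.card_piFinset]
    simp only [Finset.prod_const, Finset.card_univ, Fintype.card_fin]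
    calc D.card ^ 4 ≤ (s ^ 9) ^ 4 := Nat.pow_le_pow_left hD 4
      _ = _ := by rw [← pow_mul]
  -- averaging
  have hex : ∃ T ∈ Fintype.piFinset (fun _ : Fin 4 => D),
      K ^ 4 * h ^ 4 * s ^ 20 + K ^ 4 * bad T ≤ 2 * h ^ 4 * s ^ 16 * (A1 T).card := by
    by_contra hcon
    push Not at hcon
    have h1 : ∑ T ∈ Fintype.piFinset (fun _ : Fin 4 => D),
        (2 * h ^ 4 * s ^ 16 * (A1 T).card + 1) ≤
        ∑ T ∈ Fintype.piFinset (fun _ : Fin 4 => D), (K ^ 4 * h ^ 4 * s ^ 20 + K ^ 4 * bad T) :=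
      Finset.sum_le_sum (fun T hT => hcon T hT)
    set c := (Fintype.piFinset (fun _ : Fin 4 => D)).card with hc
    have e1 : ∑ T ∈ Fintype.piFinset (fun _ : Fin 4 => D),
        (2 * h ^ 4 * s ^ 16 * (A1 T).card + 1) = 2 * h ^ 4 * s ^ 16 *
        ∑ T ∈ Fintype.piFinset (fun _ : Fin 4 => D), (A1 T).card + c := by
      rw [Finset.sum_add_distrib, ← Finset.mul_sum, Finset.sum_const, smul_eq_mul, mul_one]
    have e2 : ∑ T ∈ Fintype.piFinset (fun _ : Fin 4 => D),
        (K ^ 4 * h ^ 4 * s ^ 20 + K ^ 4 * bad T) = c * (K ^ 4 * h ^ 4 * s ^ 20) +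
        K ^ 4 * ∑ T ∈ Fintype.piFinset (fun _ : Fin 4 => D), bad T := by
      rw [Finset.sum_add_distrib, Finset.sum_const, smul_eq_mul, ← Finset.mul_sum]
    rw [e1, e2] at h1
    have h2 : 2 * h ^ 4 * s ^ 16 * (K ^ 4 * s ^ 40) ≤ 2 * h ^ 4 * s ^ 16 *
        ∑ T ∈ Fintype.piFinset (fun _ : Fin 4 => D), (A1 T).card := Nat.mul_le_mul_left _ hsum1
    have h3 : K ^ 4 * ∑ T ∈ Fintype.piFinset (fun _ : Fin 4 => D), bad T ≤
        K ^ 4 * (h ^ 4 * s ^ 56) := Nat.mul_le_mul_left _ hsum2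
    have h4 : c * (K ^ 4 * h ^ 4 * s ^ 20) ≤ s ^ 36 * (K ^ 4 * h ^ 4 * s ^ 20) :=
      Nat.mul_le_mul_right _ hT
    have h5 : 2 * h ^ 4 * s ^ 16 * (K ^ 4 * s ^ 40) = 2 * (K ^ 4 * (h ^ 4 * s ^ 56)) := by ring
    have h6 : s ^ 36 * (K ^ 4 * h ^ 4 * s ^ 20) = K ^ 4 * (h ^ 4 * s ^ 56) := by ring
    have h7 : c = 0 := by omega
    have h8 : (Fintype.piFinset (fun _ : Fin 4 => D)) = ∅ := Finset.card_eq_zero.1 h7
    rw [h8] at hsum1
    simp only [Finset.sum_empty, Nat.le_zero] at hsum1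
    have h9 : 0 < K ^ 4 * s ^ 40 := by positivity
    omega
  obtain ⟨T, _, hTF⟩ := hex
  refine ⟨A1 T, Finset.filter_subset _ _, ?_, ?_⟩
  · have h1 : h ^ 4 * s ^ 16 * (K ^ 4 * s ^ 4) ≤ h ^ 4 * s ^ 16 * (2 * (A1 T).card) := by
      calc h ^ 4 * s ^ 16 * (K ^ 4 * s ^ 4) = K ^ 4 * h ^ 4 * s ^ 20 := by ring
        _ ≤ 2 * h ^ 4 * s ^ 16 * (A1 T).card := by omega
        _ = _ := by ring
    exact Nat.le_of_mul_le_mul_left h1 (by positivity)
  · exact (Nat.le_add_left _ _).trans hTF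

/-- Second dependent random choice. -/
lemma drc_two (h K s : ℕ) (hh : 1 ≤ h) (hK : 8 * h ≤ K) (hs : 1 ≤ s)
    (A D : Finset V) (hA : A.card = s ^ 8) (hD : D.card ≤ s ^ 9)
    (hdeg : ∀ a ∈ A, K * s ^ 8 ≤ (nb G D a).card) :
    ∃ A1 U : Finset V, A1.Nonempty ∧
      (∀ a ∈ A1, ∀ a' ∈ A1, h ≤ (cn G U a a').card) ∧
      (∀ u ∈ U, ∀ u' ∈ U, h ≤ (cn G A1 u u').card) := by
  classical
  obtain ⟨A1, hA1A, hA1, hbad⟩ := drc_one G h K s hh (by omega) hs A D hA hD hdeg
  set bad7 := (Fintype.piFinset (fun _ : Fin 7 => A1)).filter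
        (fun x => (cnt G D x).card < h) with hb7
  set Bi := bad7.image (fun x : Fin 7 → V => fun i : Fin 5 => x i.succ.succ) with hBi
  set Bii := (Fintype.piFinset (fun _ : Fin 5 => A1)).filter
    (fun T => ∃ p ∈ D ×ˢ D, (cn G A1 p.1 p.2).card < h ∧ ∀ i, T i ∈ cn G A1 p.1 p.2) with hBii
  have hBi_card : Bi.card ≤ bad7.card := Finset.card_image_le
  have hBii_card : Bii.card ≤ s ^ 18 * h ^ 5 := by
    have h1 : Bii ⊆ ((D ×ˢ D).filter (fun p => (cn G A1 p.1 p.2).card < h)).biUnion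
        (fun p => Fintype.piFinset (fun _ : Fin 5 => cn G A1 p.1 p.2)) := by
      intro T hT
      rw [hBii, Finset.mem_filter] at hT
      obtain ⟨_, p, hp, hp1, hp2⟩ := hT
      rw [Finset.mem_biUnion]
      refine ⟨p, Finset.mem_filter.2 ⟨hp, hp1⟩, ?_⟩
      rw [Fintype.mem_piFinset]
      exact hp2
    refine (Finset.card_le_card h1).trans ?_
    refine (Finset.card_biUnion_le_card_mul _ _ (h ^ 5) ?_).trans ?_
    · intro p hp
      rw [Finset.mem_filter] at hp
      rw [Fintype.card_piFinset]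
      simp only [Finset.prod_const, Finset.card_univ, Fintype.card_fin]
      exact Nat.pow_le_pow_left hp.2.le 5
    · apply Nat.mul_le_mul_right
      refine (Finset.card_filter_le _ _).trans ?_
      rw [Finset.card_product]
      calc D.card * D.card ≤ s ^ 9 * s ^ 9 := Nat.mul_le_mul hD hD
        _ = _ := by ring
  -- the count
  have hcount : Bi.card + Bii.card < A1.card ^ 5 := by
    set a := A1.card with ha
    have ha1 : 1 ≤ a := by
      by_contra hc
      have : a = 0 := by omega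
      rw [this] at hA1
      have : 0 < K ^ 4 * s ^ 4 := by
        have : 0 < K := by omega
        positivity
      omega
    -- K^16 s^16 ≤ 16 a^4
    have h1 : (K ^ 4 * s ^ 4) ^ 4 ≤ (2 * a) ^ 4 := Nat.pow_le_pow_left hA1 4
    have hKh : 8 * h ≤ K := hK
    -- bound for bad7: K^4 * bad7 ≤ 2 h^4 s^16 a
    -- K^20 bad7 ≤ 2 h^4 (K^16 s^16) a ≤ 32 h^4 a^5
    have h2 : K ^ 20 * bad7.card ≤ 32 * h ^ 4 * a ^ 5 := by
      calc K ^ 20 * bad7.card = K ^ 16 * (K ^ 4 * bad7.card) := by ring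
        _ ≤ K ^ 16 * (2 * h ^ 4 * s ^ 16 * a) := Nat.mul_le_mul_left _ hbad
        _ = 2 * h ^ 4 * a * (K ^ 4 * s ^ 4) ^ 4 := by ring
        _ ≤ 2 * h ^ 4 * a * (2 * a) ^ 4 := Nat.mul_le_mul_left _ h1
        _ = _ := by ring
    have h3 : (K ^ 4 * s ^ 4) ^ 5 ≤ (2 * a) ^ 5 := Nat.pow_le_pow_left hA1 5
    have h4 : K ^ 20 * (s ^ 18 * h ^ 5) ≤ 32 * h ^ 5 * a ^ 5 := by
      calc K ^ 20 * (s ^ 18 * h ^ 5) ≤ K ^ 20 * (s ^ 20 * h ^ 5) := by
            apply Nat.mul_le_mul_left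
            apply Nat.mul_le_mul_right
            exact Nat.pow_le_pow_right hs (by norm_num)
        _ = h ^ 5 * (K ^ 4 * s ^ 4) ^ 5 := by ring
        _ ≤ h ^ 5 * (2 * a) ^ 5 := Nat.mul_le_mul_left _ h3
        _ = _ := by ring
    have h5 : 128 * h ^ 5 ≤ K ^ 20 := by
      calc 128 * h ^ 5 ≤ 8 ^ 20 * h ^ 20 := by
            apply Nat.mul_le_mul
            · norm_num
            · exact Nat.pow_le_pow_right hh (by norm_num)
        _ = (8 * h) ^ 20 := by ring
        _ ≤ K ^ 20 := Nat.pow_le_pow_left hKh 20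
    have h6 : K ^ 20 * (Bi.card + Bii.card) ≤ 64 * h ^ 5 * a ^ 5 := by
      calc K ^ 20 * (Bi.card + Bii.card) ≤ K ^ 20 * (bad7.card + s ^ 18 * h ^ 5) :=
            Nat.mul_le_mul_left _ (Nat.add_le_add hBi_card hBii_card)
        _ = K ^ 20 * bad7.card + K ^ 20 * (s ^ 18 * h ^ 5) := by ring
        _ ≤ 32 * h ^ 4 * a ^ 5 + 32 * h ^ 5 * a ^ 5 := Nat.add_le_add h2 h4
        _ ≤ 32 * h ^ 5 * a ^ 5 + 32 * h ^ 5 * a ^ 5 := by
            apply Nat.add_le_add_right
            apply Nat.mul_le_mul_right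
            apply Nat.mul_le_mul_left
            exact Nat.pow_le_pow_right hh (by norm_num)
        _ = _ := by ring
    by_contra hc
    push Not at hc
    have h7 : 128 * h ^ 5 * a ^ 5 ≤ 64 * h ^ 5 * a ^ 5 := by
      calc 128 * h ^ 5 * a ^ 5 ≤ K ^ 20 * (Bi.card + Bii.card) := Nat.mul_le_mul h5 hc
        _ ≤ _ := h6
    have h8 : 0 < h ^ 5 * a ^ 5 := by positivity
    have h9 : 128 * h ^ 5 * a ^ 5 = 128 * (h ^ 5 * a ^ 5) := by ring
    have h10 : 64 * h ^ 5 * a ^ 5 = 64 * (h ^ 5 * a ^ 5) := by ring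
    omega
  have hexT : ∃ T ∈ Fintype.piFinset (fun _ : Fin 5 => A1), T ∉ Bi ∪ Bii := by
    by_contra hc
    push Not at hc
    have h1 := Finset.card_le_card (fun T hT => hc T hT : Fintype.piFinset (fun _ : Fin 5 => A1) ⊆
      Bi ∪ Bii)
    rw [Fintype.card_piFinset] at h1
    simp only [Finset.prod_const, Finset.card_univ, Fintype.card_fin] at h1
    have h2 := Finset.card_union_le Bi Bii
    omega
  obtain ⟨T, hT, hTn⟩ := hexT
  rw [Fintype.mem_piFinset] at hT
  rw [Finset.mem_union, not_or] at hTn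
  refine ⟨A1, cnt G D T, ?_, ?_, ?_⟩
  · rw [← Finset.card_pos]
    by_contra hc
    have : A1.card = 0 := by omega
    rw [this] at hcount
    omega
  · intro a ha a' ha'
    by_contra hc
    push Not at hc
    apply hTn.1
    rw [hBi, Finset.mem_image]
    refine ⟨Fin.cons a (Fin.cons a' T), ?_, ?_⟩
    · rw [hb7, Finset.mem_filter, Fintype.mem_piFinset]
      constructor
      · intro i
        refine Fin.cases ?_ ?_ i
        · simpa using ha
        · intro i
          refine Fin.cases ?_ ?_ i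
          · simpa using ha'
          · intro i
            simpa using hT i
      · refine lt_of_le_of_lt (Finset.card_le_card ?_) hc
        intro d hd
        rw [mem_cnt] at hd
        rw [mem_cn, mem_cnt]
        refine ⟨⟨hd.1, ?_⟩, ?_, ?_⟩
        · intro i
          simpa using hd.2 i.succ.succ
        · simpa using hd.2 0
        · simpa using hd.2 1
    · funext i
      simp
  · intro u hu u' hu'
    by_contra hc
    push Not at hc
    apply hTn.2
    rw [mem_cnt] at hu hu'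
    rw [hBii, Finset.mem_filter, Fintype.mem_piFinset]
    refine ⟨hT, (u, u'), Finset.mem_product.2 ⟨hu.1, hu'.1⟩, hc, ?_⟩
    intro i
    rw [mem_cn]
    exact ⟨hT i, (hu.2 i).symm, (hu'.2 i).symm⟩

end Pool.Agent.H38.Ram
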