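import Pool.Agent.H38.Ram.DRC

set_option autoImplicit false
set_option linter.unusedSectionVars false

namespace Pool.Agent.H38.Ram

open Finset

variable {V : Type*} [DecidableEq V] (G : SimpleGraph V) [DecidableRel G.Adj]

/-- A finset of at most two elements, mapped into `X`, lies in `{x, y}` for some `x, y ∈ X`. -/
lemma exists_pair {α β : Type*} [DecidableEq α] (B : Finset α) (hB : B.card ≤ 2) (X : Finset β)
    (hX : X.Nonempty) (φ : α → β) (hφ : ∀ b ∈ B, φ b ∈ X) :
    ∃ x ∈ X, ∃ y ∈ X, ∀ b ∈ B, φ b = x ∨ φ b = y := by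
  obtain ⟨x₀, hx₀⟩ := hX
  have h3 : B.card = 0 ∨ B.card = 1 ∨ B.card = 2 := by omega
  rcases h3 with h | h | h
  · rw [Finset.card_eq_zero] at h
    subst h
    exact ⟨x₀, hx₀, x₀, hx₀, by simp⟩
  · rw [Finset.card_eq_one] at h
    obtain ⟨b, rfl⟩ := h
    refine ⟨φ b, hφ b (by simp), φ b, hφ b (by simp), ?_⟩
    intro b' hb'
    rw [Finset.mem_singleton] at hb'
    subst hb'
    exact Or.inl rfl
  · rw [Finset.card_eq_two] at h
    obtain ⟨b, c, _, rfl⟩ := h
    refine ⟨φ b, hφ b (by simp), φ c, hφ c (by simp), ?_⟩
    intro b' hb'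
    simp only [Finset.mem_insert, Finset.mem_singleton] at hb'
    rcases hb' with rfl | rfl
    · exact Or.inl rfl
    · exact Or.inr rfl

lemma embed_pairs {k : ℕ} (H : SimpleGraph (Fin k)) (f : Fin k → ℕ) (hf : Function.Injective f)
    (hback : ∀ v : Fin k, Set.ncard {u : Fin k | H.Adj u v ∧ f u < f v} ≤ 2)
    (c : Fin k → Bool) (hc : ∀ u v, H.Adj u v → c u ≠ c v)
    (A U : Finset V) (hAne : A.Nonempty)
    (hA : ∀ a ∈ A, ∀ a' ∈ A, k ≤ (cn G U a a').card)
    (hU : ∀ u ∈ U, ∀ u' ∈ U, k ≤ (cn G A u u').card) :
    H.IsContained G := by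
  classical
  rcases Nat.eq_zero_or_pos k with hk0 | hk
  · subst hk0
    exact SimpleGraph.IsContained.of_isEmpty
  have hUne : U.Nonempty := by
    obtain ⟨a, ha⟩ := hAne
    have h1 := hA a ha a ha
    have h2 : (cn G U a a).Nonempty := by
      rw [← Finset.card_pos]; omega
    obtain ⟨u, hu⟩ := h2
    exact ⟨u, ((mem_cn G).1 hu).1⟩
  obtain ⟨a₀, ha₀⟩ := hAne
  set side : Bool → Finset V := fun b => if b then A else U with hside
  have hside_ne : ∀ b, (side b).Nonempty := by
    intro b
    cases b
    · exact hUne
    · exact ⟨a₀, ha₀⟩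
  have hside_cn : ∀ b, ∀ x ∈ side (!b), ∀ y ∈ side (!b), k ≤ (cn G (side b) x y).card := by
    intro b
    cases b
    · exact hA
    · exact hU
  let Inv : Finset (Fin k) → (Fin k → V) → Prop := fun S φ =>
    (∀ u ∈ S, ∀ v ∈ S, φ u = φ v → u = v) ∧
    (∀ u ∈ S, φ u ∈ side (c u)) ∧
    (∀ u ∈ S, ∀ v ∈ S, H.Adj u v → G.Adj (φ u) (φ v))
  have hmain : ∃ φ : Fin k → V, Inv Finset.univ φ := by
    refine greedy f hf Inv (fun _ => a₀) ?_ ?_
    · refine ⟨?_, ?_, ?_⟩ <;> intro u hu <;> simp at hu
    · intro v φ hInv
      obtain ⟨hinj, hsd, hadj⟩ := hInv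
      set S := Finset.univ.filter (fun u => f u < f v) with hS
      set B : Finset (Fin k) := Finset.univ.filter (fun u => H.Adj u v ∧ f u < f v) with hB
      have hBset : (B : Set (Fin k)) = {u : Fin k | H.Adj u v ∧ f u < f v} := by
        ext u; simp [hB]
      have hBS : B ⊆ S := by
        intro u hu
        rw [hB, Finset.mem_filter] at hu
        rw [hS, Finset.mem_filter]
        exact ⟨hu.1, hu.2.2⟩
      have hBcard : B.card ≤ 2 := by
        have := hback v
        rw [← hBset, Set.ncard_coe_finset] at this
        exact this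
      have hvS : v ∉ S := by
        rw [hS, Finset.mem_filter]
        intro h
        omega
      have hScard : S.card < k := by
        have h1 : S ⊂ Finset.univ := by
          rw [Finset.ssubset_univ_iff]
          intro h
          exact hvS (by rw [h]; exact Finset.mem_univ _)
        have h2 := Finset.card_lt_card h1
        rw [Finset.card_univ, Fintype.card_fin] at h2
        exact h2
      have hBside : ∀ b ∈ B, φ b ∈ side (!(c v)) := by
        intro b hb
        have h1 := hsd b (hBS hb)
        have h2 : c b ≠ c v := hc b v (Finset.mem_filter.1 hb).2.1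
        have h3 : c b = !(c v) := by
          cases hcb : c b <;> cases hcv : c v <;> simp_all
        rw [← h3]
        exact h1
      obtain ⟨x, hx, y, hy, hxy⟩ := exists_pair B hBcard (side (!(c v))) (hside_ne _) φ hBside
      have hcn := hside_cn (c v) x hx y hy
      have hexg : ∃ z ∈ cn G (side (c v)) x y, z ∉ S.image φ := by
        by_contra hcon
        push Not at hcon
        have h1 : cn G (side (c v)) x y ⊆ S.image φ := hcon
        have h2 := Finset.card_le_card h1
        have h3 : (S.image φ).card ≤ S.card := Finset.card_image_le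
        omega
      obtain ⟨z, hz, hzS⟩ := hexg
      rw [mem_cn] at hz
      have hup : ∀ u ∈ S, Function.update φ v z u = φ u := by
        intro u hu
        apply Function.update_of_ne
        rintro rfl
        exact hvS hu
      have hupv : Function.update φ v z v = z := Function.update_self _ _ _
      have hzne : ∀ u ∈ S, φ u ≠ z := by
        intro u hu h
        exact hzS (Finset.mem_image.2 ⟨u, hu, h⟩)
      have hzadj : ∀ u ∈ S, H.Adj u v → G.Adj (φ u) z := by
        intro u hu huv
        have huB : u ∈ B := by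
          rw [hB, Finset.mem_filter]
          exact ⟨Finset.mem_univ _, huv, (Finset.mem_filter.1 hu).2⟩
        rcases hxy u huB with h | h
        · rw [h]; exact hz.2.1
        · rw [h]; exact hz.2.2
      refine ⟨z, ?_, ?_, ?_⟩
      · intro u hu w hw huw
        rw [Finset.mem_insert] at hu hw
        rcases hu with rfl | hu
        · rcases hw with rfl | hw
          · rfl
          · rw [hupv, hup w hw] at huw
            exact absurd huw.symm (hzne w hw)
        · rcases hw with rfl | hw
          · rw [hupv, hup u hu] at huw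
            exact absurd huw (hzne u hu)
          · rw [hup u hu, hup w hw] at huw
            exact hinj u hu w hw huw
      · intro u hu
        rw [Finset.mem_insert] at hu
        rcases hu with rfl | hu
        · rw [hupv]; exact hz.1
        · rw [hup u hu]; exact hsd u hu
      · intro u hu w hw huw
        rw [Finset.mem_insert] at hu hw
        rcases hu with rfl | hu
        · rcases hw with rfl | hw
          · exact absurd rfl huw.ne
          · rw [hupv, hup w hw]
            exact (hzadj w hw huw.symm).symm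
        · rcases hw with rfl | hw
          · rw [hupv, hup u hu]
            exact hzadj u hu huw
          · rw [hup u hu, hup w hw]
            exact hadj u hu w hw huw
  obtain ⟨φ, hinj, _, hadj⟩ := hmain
  have hinj' : Function.Injective φ := fun u v h =>
    hinj u (Finset.mem_univ _) v (Finset.mem_univ _) h
  refine ⟨⟨⟨φ, ?_⟩, hinj'⟩⟩
  intro u v huv
  exact hadj u (Finset.mem_univ _) v (Finset.mem_univ _) huv

/-- Dense spot lemma: if `H` (bipartite, `2`-degenerate) is not in `G` then few vertices have many
neighbours in a small set `D`. -/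
lemma dense_spot [Fintype V] {k : ℕ} (hk : 1 ≤ k) (H : SimpleGraph (Fin k)) (f : Fin k → ℕ)
    (hf : Function.Injective f)
    (hback : ∀ v : Fin k, Set.ncard {u : Fin k | H.Adj u v ∧ f u < f v} ≤ 2)
    (c : Fin k → Bool) (hc : ∀ u v, H.Adj u v → c u ≠ c v)
    (hfree : ¬ H.IsContained G) (s : ℕ) (hs : 1 ≤ s) (D : Finset V) (hD : D.card ≤ s ^ 9) :
    (Finset.univ.filter (fun a => 8 * k * s ^ 8 ≤ (nb G D a).card)).card ≤ s ^ 8 := by
  classical
  by_contra hcon
  push Not at hcon
  obtain ⟨A, hAsub, hA⟩ := Finset.exists_subset_card_eq hcon.le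
  obtain ⟨A1, U, hne, h1, h2⟩ := drc_two G k (8 * k) s hk le_rfl hs A D hA hD
    (fun a ha => (Finset.mem_filter.1 (hAsub ha)).2)
  exact hfree (embed_pairs G H f hf hback c hc A1 U hne h1 h2)

end Pool.Agent.H38.Ram
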