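import Mathlib
import Pool.Agent.H38.Ram.ChainEmbed
import Pool.Agent.H95.Ram.Apex

/-!
# Polynomial savings for `R(H, K_{n,n})`: the parts of the theorem

`near_two_degenerate`: `H - Z` is `2`-degenerate, `|Z| ≤ s`: exponent `s + 3 - 1 / (8 k) ^ k`.
`bipartite_two_degenerate`: `H` bipartite and `2`-degenerate: exponent `26 / 9`.
`apex_transfer`: a bound with exponent `e ≥ 0` for the graph `H` without the edges at `Z`,
`|Z| ≤ s`, gives a bound with exponent `s + e` for `H`: if the complement of `G` contains no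
`K_{n,n}` then `G` contains a clique on `s` vertices with a large common neighbourhood, where we
embed `H - Z`.
-/

set_option autoImplicit false

namespace Pool.Agent.H38.Ram

open Finset Pool.Agent.H95.Ram

theorem near_two_degenerate :
    ∀ s k : ℕ, ∀ H : SimpleGraph (Fin k), ∀ Z : Finset (Fin k), Z.card ≤ s →
      (∃ f : Fin k → ℕ, Function.Injective f ∧ ∀ v : Fin k, v ∉ Z →
        Set.ncard {u : Fin k | u ∉ Z ∧ H.Adj u v ∧ f u < f v} ≤ 2) →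
      ∃ C : ℝ, ∀ n N : ℕ,
        C * (n : ℝ) ^ ((s : ℝ) + 3 - 1 / (8 * (k : ℝ)) ^ k : ℝ) ≤ (N : ℝ) →
        ∀ G : SimpleGraph (Fin N),
          H.IsContained G ∨ (completeBipartiteGraph (Fin n) (Fin n)).IsContained Gᶜ := by
  classical
  intro s k H Z hZ hdeg
  obtain ⟨f, hf, hback⟩ := hdeg
  rcases Nat.eq_zero_or_pos k with hk0 | hk
  · subst hk0
    exact ⟨0, fun n N _ G => Or.inl SimpleGraph.IsContained.of_isEmpty⟩
  obtain ⟨ℓ, hℓ⟩ : ∃ ℓ : ℕ, ℓ + 1 = (8 * k) ^ k :=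
    ⟨(8 * k) ^ k - 1, Nat.sub_add_cancel (Nat.one_le_pow _ _ (by omega))⟩
  have hexp : (8 * (k : ℝ)) ^ k = (ℓ : ℝ) + 1 := by
    have : ((ℓ + 1 : ℕ) : ℝ) = (((8 * k) ^ k : ℕ) : ℝ) := by rw [hℓ]
    push_cast at this
    exact this.symm
  set M₀ : ℕ := 2 * (2 * k + 10) * (2 * k) ^ 4 with hM₀
  have hM₀1 : 1 ≤ M₀ := by
    have h1 : 1 ≤ (2 * k) ^ 4 := Nat.one_le_pow _ _ (by omega)
    calc 1 = 1 * 1 := rfl
      _ ≤ (2 * (2 * k + 10)) * (2 * k) ^ 4 := Nat.mul_le_mul (by omega) h1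
  set E : ℕ := (ℓ + 1) * s + (3 * ℓ + 2) with hE
  refine ⟨(2 * (k : ℝ) + 10 + 3 * s) * (2 * (M₀ : ℝ)) ^ E, ?_⟩
  intro n N hN G
  rcases Nat.eq_zero_or_pos n with hn0 | hn
  · right
    subst hn0
    exact SimpleGraph.IsContained.of_isEmpty
  by_cases hcont : (completeBipartiteGraph (Fin n) (Fin n)).IsContained Gᶜ
  · exact Or.inr hcont
  left
  rw [hexp] at hN
  have hℓ0 : (0 : ℝ) < (ℓ : ℝ) + 1 := by positivity
  set x : ℝ := (n : ℝ) ^ (1 / ((ℓ : ℝ) + 1)) with hx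
  have hn1 : (1 : ℝ) ≤ n := by exact_mod_cast hn
  have hx1 : 1 ≤ x := Real.one_le_rpow hn1 (by positivity)
  have hxL : x ^ (ℓ + 1) = n := by
    rw [hx, ← Real.rpow_natCast, ← Real.rpow_mul (by linarith)]
    push_cast
    rw [one_div, inv_mul_cancel₀ hℓ0.ne', Real.rpow_one]
  have hxN : x ^ E = (n : ℝ) ^ ((s : ℝ) + 3 - 1 / ((ℓ : ℝ) + 1)) := by
    rw [hx, ← Real.rpow_natCast, ← Real.rpow_mul (by linarith)]
    congr 1
    rw [hE]
    push_cast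
    field_simp
    ring
  set t : ℕ := ⌈x⌉₊ with ht
  have hxt : x ≤ t := Nat.le_ceil x
  have htx : (t : ℝ) ≤ 2 * x := by
    have := Nat.ceil_lt_add_one (show (0 : ℝ) ≤ x by linarith)
    linarith
  set M : ℕ := M₀ * t with hM
  have hMM₀ : M₀ ≤ M := by
    have ht1 : 1 ≤ t := by
      have : (1 : ℝ) ≤ t := hx1.trans hxt
      exact_mod_cast this
    calc M₀ = M₀ * 1 := (mul_one _).symm
      _ ≤ M₀ * t := Nat.mul_le_mul_left _ ht1
  have hM1 : 1 ≤ M := hM₀1.trans hMM₀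
  have hMx : (M : ℝ) ≤ 2 * (M₀ : ℝ) * x := by
    rw [hM]
    push_cast
    calc (M₀ : ℝ) * t ≤ M₀ * (2 * x) := mul_le_mul_of_nonneg_left htx (by positivity)
      _ = _ := by ring
  have hnM : n ≤ M ^ (ℓ + 1) := by
    have h1 : (n : ℝ) ≤ (M : ℝ) ^ (ℓ + 1) := by
      rw [← hxL]
      apply pow_le_pow_left₀ (by linarith)
      refine hxt.trans ?_
      have h2 : t ≤ M := by
        calc t = 1 * t := (one_mul _).symm
          _ ≤ M₀ * t := Nat.mul_le_mul_right _ hM₀1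
      exact_mod_cast h2
    exact_mod_cast h1
  have hNM : (2 * k + 10 + 3 * s) * M ^ E ≤ N := by
    have h1 : (M : ℝ) ^ E ≤ (2 * (M₀ : ℝ)) ^ E * x ^ E := by
      rw [← mul_pow]
      exact pow_le_pow_left₀ (by positivity) hMx _
    have h2 : (2 * (k : ℝ) + 10 + 3 * s) * (M : ℝ) ^ E ≤ N := by
      calc (2 * (k : ℝ) + 10 + 3 * s) * (M : ℝ) ^ E
          ≤ (2 * (k : ℝ) + 10 + 3 * s) * ((2 * (M₀ : ℝ)) ^ E * x ^ E) :=
            mul_le_mul_of_nonneg_left h1 (by positivity)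
        _ = (2 * (k : ℝ) + 10 + 3 * s) * (2 * (M₀ : ℝ)) ^ E *
            (n : ℝ) ^ ((s : ℝ) + 3 - 1 / ((ℓ : ℝ) + 1)) := by rw [hxN]; ring
        _ ≤ N := hN
    exact_mod_cast h2
  have hV : (M ^ (ℓ + 1)) ^ s * ((2 * k + 10) * M ^ (3 * ℓ + 2) + 3 * s) ≤
      (Finset.univ : Finset (Fin N)).card := by
    rw [Finset.card_univ, Fintype.card_fin]
    refine le_trans ?_ hNM
    have h1 : 1 ≤ M ^ (3 * ℓ + 2) := Nat.one_le_pow _ _ hM1
    calc (M ^ (ℓ + 1)) ^ s * ((2 * k + 10) * M ^ (3 * ℓ + 2) + 3 * s)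
        ≤ (M ^ (ℓ + 1)) ^ s * ((2 * k + 10) * M ^ (3 * ℓ + 2) + 3 * s * M ^ (3 * ℓ + 2)) :=
          Nat.mul_le_mul_left _ (Nat.add_le_add_left (Nat.le_mul_of_pos_right _ h1) _)
      _ = (2 * k + 10 + 3 * s) * ((M ^ (ℓ + 1)) ^ s * M ^ (3 * ℓ + 2)) := by ring
      _ = (2 * k + 10 + 3 * s) * M ^ E := by rw [← pow_mul, ← pow_add]
  have hJ : Joined G (M ^ (ℓ + 1)) := by
    intro A B hAB hA hB
    exact joined_of_not_contained G n hcont A B hAB (hnM.trans hA) (hnM.trans hB)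
  exact core_apex G (M := M) (ℓ := ℓ) hk hMM₀ hℓ.ge hV hJ H Z hZ f hf hback

theorem bipartite_two_degenerate :
    ∀ k : ℕ, ∀ H : SimpleGraph (Fin k), H.IsBipartite →
      (∃ f : Fin k → ℕ, Function.Injective f ∧
        ∀ v : Fin k, Set.ncard {u : Fin k | H.Adj u v ∧ f u < f v} ≤ 2) →
      ∃ C : ℝ, ∀ n N : ℕ, C * (n : ℝ) ^ (26 / 9 : ℝ) ≤ (N : ℝ) →
        ∀ G : SimpleGraph (Fin N),
          H.IsContained G ∨ (completeBipartiteGraph (Fin n) (Fin n)).IsContained Gᶜ := by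
  classical
  intro k H hbip hdeg
  obtain ⟨f, hf, hback⟩ := hdeg
  rcases Nat.eq_zero_or_pos k with hk0 | hk
  · subst hk0
    exact ⟨0, fun n N _ G => Or.inl SimpleGraph.IsContained.of_isEmpty⟩
  obtain ⟨col⟩ := hbip
  let c : Fin k → Bool := fun v => decide (col v = 0)
  have hc : ∀ u v, H.Adj u v → c u ≠ c v := by
    intro u v huv h
    have h1 : col u ≠ col v := col.valid huv
    apply h1
    have h2 : (col u = 0) ↔ (col v = 0) := by
      simpa [c] using h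
    have h3 : ∀ a b : Fin 2, ((a = 0) ↔ (b = 0)) → a = b := by decide
    exact h3 _ _ h2
  refine ⟨(2 : ℝ) ^ 26 * (48 * (k : ℝ) ^ 3), ?_⟩
  intro n N hN G
  rcases Nat.eq_zero_or_pos n with hn0 | hn
  · right
    subst hn0
    exact SimpleGraph.IsContained.of_isEmpty
  by_cases hcont : (completeBipartiteGraph (Fin n) (Fin n)).IsContained Gᶜ
  · exact Or.inr hcont
  left
  by_contra hfree
  -- the integer `s`
  set x : ℝ := (n : ℝ) ^ (1 / 9 : ℝ) with hx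
  have hn1 : (1 : ℝ) ≤ n := by exact_mod_cast hn
  have hx1 : 1 ≤ x := Real.one_le_rpow hn1 (by norm_num)
  have hx9 : x ^ 9 = n := by
    rw [hx, ← Real.rpow_natCast, ← Real.rpow_mul (by linarith)]
    norm_num
  have hx26 : x ^ 26 = (n : ℝ) ^ (26 / 9 : ℝ) := by
    rw [hx, ← Real.rpow_natCast, ← Real.rpow_mul (by linarith)]
    norm_num
  set s : ℕ := ⌈x⌉₊ with hs
  have hxs : x ≤ s := Nat.le_ceil x
  have hs1 : 1 ≤ s := by
    have : (1 : ℝ) ≤ s := hx1.trans hxs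
    exact_mod_cast this
  have hsx : (s : ℝ) ≤ 2 * x := by
    have := Nat.ceil_lt_add_one (show (0 : ℝ) ≤ x by linarith)
    linarith
  have hns : n ≤ s ^ 9 := by
    have h1 : (n : ℝ) ≤ (s : ℝ) ^ 9 := by
      rw [← hx9]
      exact pow_le_pow_left₀ (by linarith) hxs 9
    exact_mod_cast h1
  have hNs : 48 * k ^ 3 * s ^ 26 ≤ N := by
    have h1 : (s : ℝ) ^ 26 ≤ 2 ^ 26 * x ^ 26 := by
      rw [← mul_pow]
      exact pow_le_pow_left₀ (by positivity) hsx 26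
    have h2 : (48 * (k : ℝ) ^ 3) * (s : ℝ) ^ 26 ≤ N := by
      calc (48 * (k : ℝ) ^ 3) * (s : ℝ) ^ 26 ≤ (48 * (k : ℝ) ^ 3) * (2 ^ 26 * x ^ 26) :=
            mul_le_mul_of_nonneg_left h1 (by positivity)
        _ = 2 ^ 26 * (48 * (k : ℝ) ^ 3) * (n : ℝ) ^ (26 / 9 : ℝ) := by rw [hx26]; ring
        _ ≤ N := hN
    exact_mod_cast h2
  have hJ : Joined G (s ^ 9) := by
    intro A B hAB hA hB
    exact joined_of_not_contained G n hcont A B hAB (hns.trans hA) (hns.trans hB)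
  have hDS : ∀ D : Finset (Fin N), D.card ≤ s ^ 9 →
      (Finset.univ.filter (fun a => 8 * k * s ^ 8 ≤ (nb G D a).card)).card ≤ s ^ 8 :=
    fun D hD => dense_spot G hk H f hf hback c hc hfree s hs1 D hD
  have hcard : (Finset.univ : Finset (Fin N)).card = N := by simp
  have hk1 : k ≤ k ^ 3 := by
    calc k = k ^ 1 := (pow_one k).symm
      _ ≤ k ^ 3 := Nat.pow_le_pow_right hk (by norm_num)
  have hk2 : k ^ 2 ≤ k ^ 3 := Nat.pow_le_pow_right hk (by norm_num)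
  have hk3 : 1 ≤ k ^ 3 := Nat.one_le_pow _ _ hk
  have hs8 : 1 ≤ s ^ 8 := Nat.one_le_pow _ _ hs1
  have hs89 : s ^ 8 ≤ s ^ 9 := Nat.pow_le_pow_right hs1 (by norm_num)
  have hs917 : s ^ 9 ≤ s ^ 17 := Nat.pow_le_pow_right hs1 (by norm_num)
  have hs1726 : s ^ 17 ≤ s ^ 26 := Nat.pow_le_pow_right hs1 (by norm_num)
  have hs1826 : s ^ 18 ≤ s ^ 26 := Nat.pow_le_pow_right hs1 (by norm_num)
  have hs926 : s ^ 9 ≤ s ^ 26 := hs917.trans hs1726
  have a1 : k ≤ k ^ 3 * s ^ 8 := hk1.trans (Nat.le_mul_of_pos_right _ hs8)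
  have a2 : k ^ 2 * s ^ 8 ≤ k ^ 3 * s ^ 8 := Nat.mul_le_mul_right _ hk2
  have a3 : 1 ≤ k ^ 3 * s ^ 8 := Nat.mul_le_mul hk3 hs8
  have a4 : k ^ 2 * s ^ 9 ≤ k ^ 3 * s ^ 9 := Nat.mul_le_mul_right _ hk2
  have a5 : k ^ 3 * s ^ 8 ≤ k ^ 3 * s ^ 9 := Nat.mul_le_mul_left _ hs89
  have a6 : k ^ 3 * s ^ 9 ≤ k ^ 3 * s ^ 17 := Nat.mul_le_mul_left _ hs917
  have a7 : k ^ 3 * s ^ 9 ≤ k ^ 3 * s ^ 26 := Nat.mul_le_mul_left _ hs926
  have a8 : s ^ 18 ≤ k ^ 3 * s ^ 26 := hs1826.trans (Nat.le_mul_of_pos_left _ hk3)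
  have a9 : s ^ 9 ≤ k ^ 3 * s ^ 26 := hs926.trans (Nat.le_mul_of_pos_left _ hk3)
  have a10 : k * s ^ 9 ≤ k ^ 3 * s ^ 9 := Nat.mul_le_mul_right _ hk1
  have hNs' : 48 * (k ^ 3 * s ^ 26) ≤ N := by
    calc 48 * (k ^ 3 * s ^ 26) = 48 * k ^ 3 * s ^ 26 := by ring
      _ ≤ N := hNs
  refine hfree (chain_embed G (n := s ^ 9) (σ := s ^ 8) (θ := 8 * k * s ^ 8) hJ hDS
    (20 * (k ^ 3 * s ^ 8)) (8 * k * s ^ 8) hs8 hk le_rfl ?_ ?_ ?_ ?_ ?_ H f hf hback)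
  · rw [hcard]
    have e : 2 * (s ^ 9 * (s ^ 9 * (20 * (k ^ 3 * s ^ 8)) + 2 * s ^ 9) + 2 * s ^ 9) =
        40 * (k ^ 3 * s ^ 26) + 4 * s ^ 18 + 4 * s ^ 9 := by ring
    rw [e]
    omega
  · rw [hcard]
    have e : 8 * k * s ^ 9 = 8 * (k * s ^ 9) := by ring
    rw [e]
    omega
  · have e : k + k * k * (8 * k * s ^ 8 + s ^ 8 + 8 * k * s ^ 8) =
        k + 16 * (k ^ 3 * s ^ 8) + k ^ 2 * s ^ 8 := by ring
    rw [e]
    omega
  · have e : k + k * k * (s ^ 9 + s ^ 8 + 8 * k * s ^ 8) =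
        k + k ^ 2 * s ^ 9 + k ^ 2 * s ^ 8 + 8 * (k ^ 3 * s ^ 8) := by ring
    have e2 : s ^ 9 * (20 * (k ^ 3 * s ^ 8)) + 2 * s ^ 9 = 20 * (k ^ 3 * s ^ 17) + 2 * s ^ 9 := by
      ring
    rw [e, e2]
    omega
  · rw [hcard]
    have e : 2 * (k + k * k * (s ^ 9 + s ^ 8 + 8 * k * s ^ 8)) =
        2 * k + 2 * (k ^ 2 * s ^ 9) + 2 * (k ^ 2 * s ^ 8) + 16 * (k ^ 3 * s ^ 8) := by ring
    rw [e]
    omega

/-- The graph `H` without the edges at `Z`. -/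
def without {k : ℕ} (H : SimpleGraph (Fin k)) (Z : Finset (Fin k)) : SimpleGraph (Fin k) where
  Adj := fun u v => H.Adj u v ∧ u ∉ Z ∧ v ∉ Z
  symm := ⟨fun _ _ h => ⟨h.1.symm, h.2.2, h.2.1⟩⟩
  loopless := ⟨fun _ h => h.1.ne rfl⟩

theorem apex_transfer (s k : ℕ) (H : SimpleGraph (Fin k)) (Z : Finset (Fin k)) (hZ : Z.card ≤ s)
    (e : ℝ) (he : 0 ≤ e)
    (h : ∃ C : ℝ, ∀ n N : ℕ, C * (n : ℝ) ^ e ≤ (N : ℝ) → ∀ G : SimpleGraph (Fin N),
      (without H Z).IsContained G ∨ (completeBipartiteGraph (Fin n) (Fin n)).IsContained Gᶜ) :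
    ∃ C : ℝ, ∀ n N : ℕ, C * (n : ℝ) ^ ((s : ℝ) + e) ≤ (N : ℝ) → ∀ G : SimpleGraph (Fin N),
      H.IsContained G ∨ (completeBipartiteGraph (Fin n) (Fin n)).IsContained Gᶜ := by
  classical
  obtain ⟨C, hC⟩ := h
  refine ⟨|C| + 1 + 3 * s, ?_⟩
  intro n N hN G
  rcases Nat.eq_zero_or_pos n with hn0 | hn
  · right
    subst hn0
    exact SimpleGraph.IsContained.of_isEmpty
  by_cases hcont : (completeBipartiteGraph (Fin n) (Fin n)).IsContained Gᶜ
  · exact Or.inr hcont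
  left
  have hJ : Joined G n := joined_of_not_contained G n hcont
  have hn1 : (1 : ℝ) ≤ n := by exact_mod_cast hn
  have hne : 1 ≤ (n : ℝ) ^ e := Real.one_le_rpow hn1 he
  set w : ℕ := ⌈|C| * (n : ℝ) ^ e⌉₊ with hw
  have hw1 : |C| * (n : ℝ) ^ e ≤ w := Nat.le_ceil _
  have hw2 : (w : ℝ) ≤ |C| * (n : ℝ) ^ e + 1 :=
    (Nat.ceil_lt_add_one (by positivity)).le
  have hV : n ^ s * (w + 3 * s) ≤ (Finset.univ : Finset (Fin N)).card := by
    rw [Finset.card_univ, Fintype.card_fin]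
    have h1 : (n : ℝ) ^ s * ((w : ℝ) + 3 * s) ≤ N := by
      calc (n : ℝ) ^ s * ((w : ℝ) + 3 * s)
          ≤ (n : ℝ) ^ s * ((|C| + 1 + 3 * s) * (n : ℝ) ^ e) := by
            refine mul_le_mul_of_nonneg_left ?_ (by positivity)
            have h2 : (1 : ℝ) * 1 ≤ 1 * (n : ℝ) ^ e := mul_le_mul_of_nonneg_left hne (by norm_num)
            have h3 : (3 * s : ℝ) * 1 ≤ (3 * s : ℝ) * (n : ℝ) ^ e :=
              mul_le_mul_of_nonneg_left hne (by positivity)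
            nlinarith
        _ = (|C| + 1 + 3 * s) * (n : ℝ) ^ ((s : ℝ) + e) := by
            rw [Real.rpow_add (by linarith), Real.rpow_natCast]
            ring
        _ ≤ N := hN
    exact_mod_cast h1
  obtain ⟨z, W, _, hWcard, _, hzz, hzW⟩ := exists_clique_nbhd G hJ hn w s Finset.univ hV
  obtain ⟨W₀, hW₀W, hW₀⟩ := Finset.exists_subset_card_eq hWcard
  -- an embedding of `Fin w` with image in `W`
  obtain ⟨em, hem⟩ : ∃ em : Fin w ↪ Fin N, ∀ i, em i ∈ W := by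
    let q : Fin w ≃ {x // x ∈ W₀} := (Fintype.equivFinOfCardEq (by rw [Fintype.card_coe, hW₀])).symm
    exact ⟨q.toEmbedding.trans (Function.Embedding.subtype _), fun i => hW₀W (q i).2⟩
  have hJ' : ¬ (completeBipartiteGraph (Fin n) (Fin n)).IsContained (G.comap em)ᶜ := by
    rintro ⟨φ⟩
    apply hcont
    refine ⟨⟨⟨fun x => em (φ x), fun {a b} hab => ?_⟩, fun a b hab => ?_⟩⟩
    · have h1 : (G.comap em)ᶜ.Adj (φ a) (φ b) := φ.toHom.map_rel hab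
      rw [SimpleGraph.compl_adj] at h1 ⊢
      exact ⟨fun h2 => h1.1 (em.injective h2), fun h2 => h1.2 h2⟩
    · exact φ.injective (em.injective hab)
  have hCw : C * (n : ℝ) ^ e ≤ (w : ℝ) :=
    (mul_le_mul_of_nonneg_right (le_abs_self C) (by positivity)).trans hw1
  obtain ⟨φ⟩ : (without H Z).IsContained (G.comap em) := by
    rcases hC n w hCw (G.comap em) with h1 | h1
    · exact h1
    · exact absurd h1 hJ'
  -- an injection of `Z` into `Fin s`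
  obtain ⟨ι, hι⟩ : ∃ ι : {x // x ∈ Z} → Fin s, Function.Injective ι := by
    have h1 : Fintype.card {x // x ∈ Z} ≤ Fintype.card (Fin s) := by
      rw [Fintype.card_coe, Fintype.card_fin]
      exact hZ
    obtain ⟨ι⟩ := Function.Embedding.nonempty_of_card_le h1
    exact ⟨ι, ι.injective⟩
  let ψ : Fin k → Fin N := fun v => if h : v ∈ Z then z (ι ⟨v, h⟩) else em (φ v)
  have hψZ : ∀ v (h : v ∈ Z), ψ v = z (ι ⟨v, h⟩) := fun v h => dif_pos h
  have hψn : ∀ v (_ : v ∉ Z), ψ v = em (φ v) := fun v h => dif_neg h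
  have hψadj : ∀ u v, H.Adj u v → G.Adj (ψ u) (ψ v) := by
    intro u v huv
    by_cases hu : u ∈ Z
    · by_cases hv : v ∈ Z
      · rw [hψZ u hu, hψZ v hv]
        apply hzz
        intro h
        have := hι h
        exact huv.ne (congrArg Subtype.val this)
      · rw [hψZ u hu, hψn v hv]
        exact hzW _ _ (hem _)
    · by_cases hv : v ∈ Z
      · rw [hψn u hu, hψZ v hv]
        exact (hzW _ _ (hem _)).symm
      · rw [hψn u hu, hψn v hv]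
        have h1 : (without H Z).Adj u v := ⟨huv, hu, hv⟩
        exact φ.toHom.map_rel h1
  have hψinj : Function.Injective ψ := by
    intro u v h
    by_cases hu : u ∈ Z
    · by_cases hv : v ∈ Z
      · rw [hψZ u hu, hψZ v hv] at h
        by_contra hne
        have h1 : ι ⟨u, hu⟩ ≠ ι ⟨v, hv⟩ := fun h2 => hne (congrArg Subtype.val (hι h2))
        exact (hzz _ _ h1).ne h
      · rw [hψZ u hu, hψn v hv] at h
        exact absurd h (hzW _ _ (hem _)).ne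
    · by_cases hv : v ∈ Z
      · rw [hψn u hu, hψZ v hv] at h
        exact absurd h.symm (hzW _ _ (hem _)).ne
      · rw [hψn u hu, hψn v hv] at h
        exact φ.injective (em.injective h)
  exact ⟨⟨⟨ψ, fun {u v} h => hψadj u v h⟩, hψinj⟩⟩

end Pool.Agent.H38.Ram
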