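import Pool.Agent.H38.Ram.Cliques
import Pool.Agent.H38.Ram.Greedy

set_option autoImplicit false
set_option linter.unusedSectionVars false

namespace Pool.Agent.H38.Ram

open Finset

lemma oc_pos {V : Type*} [DecidableEq V] (G : SimpleGraph V) [DecidableRel G.Adj]
    {n : ℕ} (hJ : Joined G n) (hn : 1 ≤ n) :
    ∀ (r : ℕ) (W : Finset V), 4 * 8 ^ r * n ^ r ≤ W.card → 0 < (oc G r W).card := by
  intro r
  induction r with
  | zero =>
    intro W _
    rw [card_oc_zero]
    exact one_pos
  | succ r ih =>
    intro W hW
    have hle : 4 * 8 ^ r * n ^ r ≤ W.card := by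
      refine le_trans ?_ hW
      exact Nat.mul_le_mul (Nat.mul_le_mul_left _ (Nat.pow_le_pow_right (by norm_num) (by omega)))
        (Nat.pow_le_pow_right hn (by omega))
    have h1 := ih W hle
    have h2 := clique_count G hJ hn r W hle
    have hWpos : 0 < W.card := by
      refine lt_of_lt_of_le ?_ hle
      have : 0 < n ^ r := Nat.pow_pos hn
      positivity
    by_contra hc
    have h3 : (oc G (r + 1) W).card = 0 := by omega
    rw [h3, Nat.mul_zero] at h2
    have : 0 < W.card * (oc G r W).card := Nat.mul_pos hWpos h1
    omega

/-- Embedding a graph with a perfect elimination ordering into a clean family of cliques. -/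
lemma embed_clean {V : Type*} [DecidableEq V] (G : SimpleGraph V) [DecidableRel G.Adj]
    {k r : ℕ} (H' : SimpleGraph (Fin k)) (f : Fin k → ℕ) (hf : Function.Injective f)
    (hback : ∀ v : Fin k, H'.IsClique {u : Fin k | H'.Adj u v ∧ f u < f v} ∧
      Set.ncard {u : Fin k | H'.Adj u v ∧ f u < f v} ≤ r)
    (F : Finset (Fin (r + 1) → V)) (hFc : ∀ g ∈ F, ∀ i j, i ≠ j → G.Adj (g i) (g j))
    (hne : F.Nonempty)
    (hF : ∀ g ∈ F, ∀ i : Fin (r + 1),
      k ≤ (F.filter (fun g' => i.removeNth g' = i.removeNth g)).card) :
    H'.IsContained G := by
  classical
  obtain ⟨g₀, hg₀⟩ := hne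
  let Inv : Finset (Fin k) → (Fin k → V) → Prop := fun S φ =>
    (∀ u ∈ S, ∀ v ∈ S, φ u = φ v → u = v) ∧
    (∀ Q : Finset (Fin k), Q ⊆ S → H'.IsClique (Q : Set (Fin k)) →
      ∃ g ∈ F, ∀ q ∈ Q, ∃ i, φ q = g i)
  have hmain : ∃ φ : Fin k → V, Inv Finset.univ φ := by
    refine greedy f hf Inv (fun _ => g₀ 0) ?_ ?_
    · refine ⟨?_, ?_⟩
      · intro u hu
        simp at hu
      · intro Q hQ _
        refine ⟨g₀, hg₀, ?_⟩
        intro q hq
        have := hQ hq
        simp at this
    · intro v φ hInv
      obtain ⟨hinj, hcl⟩ := hInv
      set S := Finset.univ.filter (fun u => f u < f v) with hS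
      set B : Finset (Fin k) := Finset.univ.filter (fun u => H'.Adj u v ∧ f u < f v) with hB
      have hBset : (B : Set (Fin k)) = {u : Fin k | H'.Adj u v ∧ f u < f v} := by
        ext u; simp [hB]
      have hBS : B ⊆ S := by
        intro u hu
        rw [hB, Finset.mem_filter] at hu
        rw [hS, Finset.mem_filter]
        exact ⟨hu.1, hu.2.2⟩
      have hBcard : B.card ≤ r := by
        have := (hback v).2
        rw [← hBset, Set.ncard_coe_finset] at this
        exact this
      obtain ⟨g, hgF, hgB⟩ := hcl B hBS (by rw [hBset]; exact (hback v).1)
      choose! idx hidx using hgB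
      have hexi : ∃ i₀ : Fin (r + 1), i₀ ∉ B.image idx := by
        by_contra hc
        push Not at hc
        have h1 : (Finset.univ : Finset (Fin (r + 1))) ⊆ B.image idx := fun i _ => hc i
        have h2 := Finset.card_le_card h1
        have h3 : (B.image idx).card ≤ B.card := Finset.card_image_le
        rw [Finset.card_univ, Fintype.card_fin] at h2
        omega
      obtain ⟨i₀, hi₀⟩ := hexi
      set E := F.filter (fun g' => i₀.removeNth g' = i₀.removeNth g) with hE
      have hEcard : k ≤ E.card := hF g hgF i₀
      have hEagree : ∀ g' ∈ E, ∀ j, j ≠ i₀ → g' j = g j := by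
        intro g' hg' j hj
        rw [hE, Finset.mem_filter] at hg'
        obtain ⟨j', rfl⟩ := Fin.exists_succAbove_eq hj
        have := congrFun hg'.2 j'
        simpa [Fin.removeNth] using this
      have hEinj : Set.InjOn (fun g' : Fin (r + 1) → V => g' i₀) E := by
        intro g1 h1 g2 h2 h12
        funext j
        by_cases hj : j = i₀
        · subst hj
          exact h12
        · rw [hEagree g1 h1 j hj, hEagree g2 h2 j hj]
      have hScard : S.card < k := by
        have h1 : S ⊂ Finset.univ := by
          rw [Finset.ssubset_univ_iff]
          intro h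
          have : v ∈ S := by rw [h]; exact Finset.mem_univ _
          rw [hS, Finset.mem_filter] at this
          omega
        have h2 := Finset.card_lt_card h1
        rw [Finset.card_univ, Fintype.card_fin] at h2
        exact h2
      have hexg : ∃ g' ∈ E, g' i₀ ∉ S.image φ := by
        by_contra hc
        push Not at hc
        have h1 : E.image (fun g' : Fin (r + 1) → V => g' i₀) ⊆ S.image φ := by
          intro x hx
          rw [Finset.mem_image] at hx
          obtain ⟨g', hg', rfl⟩ := hx
          exact hc g' hg'
        have h2 := Finset.card_le_card h1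
        rw [Finset.card_image_of_injOn hEinj] at h2
        have h3 : (S.image φ).card ≤ S.card := Finset.card_image_le
        omega
      obtain ⟨g', hg'E, hg'S⟩ := hexg
      refine ⟨g' i₀, ?_, ?_⟩
      · have hvS : v ∉ S := by
          rw [hS, Finset.mem_filter]
          intro h
          omega
        intro u hu w hw huw
        rw [Finset.mem_insert] at hu hw
        by_cases huv : u = v
        · by_cases hwv : w = v
          · rw [huv, hwv]
          · subst huv
            rw [Function.update_self, Function.update_of_ne hwv] at huw
            exfalso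
            apply hg'S
            rw [Finset.mem_image]
            rcases hw with h | h
            · exact absurd h hwv
            · exact ⟨w, h, huw.symm⟩
        · by_cases hwv : w = v
          · subst hwv
            rw [Function.update_self, Function.update_of_ne huv] at huw
            exfalso
            apply hg'S
            rw [Finset.mem_image]
            rcases hu with h | h
            · exact absurd h huv
            · exact ⟨u, h, huw⟩
          · rw [Function.update_of_ne huv, Function.update_of_ne hwv] at huw
            exact hinj u (hu.resolve_left huv) w (hw.resolve_left hwv) huw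
      · intro Q hQ hQcl
        by_cases hvQ : v ∈ Q
        · refine ⟨g', (Finset.mem_filter.1 hg'E).1, ?_⟩
          intro q hq
          by_cases hqv : q = v
          · subst hqv
            exact ⟨i₀, by rw [Function.update_self]⟩
          · have hqB : q ∈ B := by
              rw [hB, Finset.mem_filter]
              refine ⟨Finset.mem_univ _, ?_, ?_⟩
              · exact hQcl (Finset.mem_coe.2 hq) (Finset.mem_coe.2 hvQ) hqv
              · have := hQ hq
                rw [Finset.mem_insert] at this
                rcases this with h | h
                · exact absurd h hqv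
                · rw [hS, Finset.mem_filter] at h
                  exact h.2
            refine ⟨idx q, ?_⟩
            rw [Function.update_of_ne hqv, hidx q hqB]
            symm
            apply hEagree g' hg'E
            intro h
            exact hi₀ (by rw [← h]; exact Finset.mem_image_of_mem _ hqB)
        · have hQS : Q ⊆ S := by
            intro q hq
            have := hQ hq
            rw [Finset.mem_insert] at this
            rcases this with h | h
            · exact absurd (h ▸ hq) hvQ
            · exact h
          obtain ⟨g1, hg1, hg1Q⟩ := hcl Q hQS hQcl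
          refine ⟨g1, hg1, ?_⟩
          intro q hq
          have hqv : q ≠ v := fun h => hvQ (h ▸ hq)
          rw [Function.update_of_ne hqv]
          exact hg1Q q hq
  obtain ⟨φ, hinj, hcl⟩ := hmain
  have hinj' : Function.Injective φ := fun u v h =>
    hinj u (Finset.mem_univ _) v (Finset.mem_univ _) h
  refine ⟨⟨⟨φ, ?_⟩, hinj'⟩⟩
  intro u v huv
  obtain ⟨g, hg, hgq⟩ := hcl {u, v} (Finset.subset_univ _) (by
    rw [Finset.coe_pair]
    exact SimpleGraph.isClique_pair.2 (fun _ => huv))
  obtain ⟨i, hi⟩ := hgq u (by simp)
  obtain ⟨j, hj⟩ := hgq v (by simp)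
  rw [hi, hj]
  apply hFc g hg
  rintro rfl
  exact huv.ne (hinj' (hi.trans hj.symm))

end Pool.Agent.H38.Ram
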